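import Mathlib

set_option autoImplicit false

open MeasureTheory Filter Topology

namespace Pool.Agent.H97.Green

/-! ### The ramp -/

/-- Smooth convex ramp. -/
noncomputable def Yr (y : ℝ) : ℝ := ∫ u in (0 : ℝ)..y, Real.smoothTransition u

lemma hasDerivAt_Yr (y : ℝ) : HasDerivAt Yr (Real.smoothTransition y) y :=
  intervalIntegral.integral_hasDerivAt_right
    (Real.smoothTransition.continuous.intervalIntegrable _ _)
    (Real.smoothTransition.continuous.stronglyMeasurableAtFilter _ _)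
    Real.smoothTransition.continuous.continuousAt

lemma deriv_Yr : deriv Yr = Real.smoothTransition := by
  funext y; exact (hasDerivAt_Yr y).deriv

lemma contDiff_Yr : ContDiff ℝ ((⊤ : ℕ∞) : WithTop ℕ∞) Yr := by
  rw [contDiff_infty_iff_deriv]
  refine ⟨fun y => (hasDerivAt_Yr y).differentiableAt, ?_⟩
  rw [deriv_Yr]
  exact Real.smoothTransition.contDiff

lemma Yr_of_nonpos {y : ℝ} (h : y ≤ 0) : Yr y = 0 := by
  unfold Yr
  rw [intervalIntegral.integral_symm]
  have : ∫ u in y..(0 : ℝ), Real.smoothTransition u = ∫ u in y..(0 : ℝ), (0 : ℝ) := by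
    refine intervalIntegral.integral_congr (fun u hu => ?_)
    rw [Set.uIcc_of_le h] at hu
    exact Real.smoothTransition.zero_of_nonpos hu.2
  rw [this]
  simp

lemma Yr_nonneg (y : ℝ) : 0 ≤ Yr y := by
  rcases le_total y 0 with h | h
  · rw [Yr_of_nonpos h]
  · exact intervalIntegral.integral_nonneg h (fun u _ => Real.smoothTransition.nonneg u)

lemma Yr_ge {y : ℝ} (h : 1 ≤ y) : y - 1 ≤ Yr y := by
  have hi := fun a b : ℝ => Real.smoothTransition.continuous.intervalIntegrable a b (μ := volume)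
  have h1 : Yr y = Yr 1 + ∫ u in (1 : ℝ)..y, Real.smoothTransition u := by
    unfold Yr
    rw [intervalIntegral.integral_add_adjacent_intervals (hi _ _) (hi _ _)]
  have h2 : ∫ u in (1 : ℝ)..y, Real.smoothTransition u = ∫ u in (1 : ℝ)..y, (1 : ℝ) := by
    refine intervalIntegral.integral_congr (fun u hu => ?_)
    rw [Set.uIcc_of_le h] at hu
    exact Real.smoothTransition.one_of_one_le hu.1
  rw [h1, h2]
  have := Yr_nonneg 1
  simp
  linarith

/-- The derivative of the transition function is bounded and vanishes beyond `1`. -/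
lemma exists_bound : ∃ C : ℝ, 0 < C ∧ (∀ y, deriv Real.smoothTransition y ≤ C) ∧
    ∀ y, 1 < y → deriv Real.smoothTransition y = 0 := by
  have hc : Continuous (deriv Real.smoothTransition) :=
    (Real.smoothTransition.contDiff (n := 1)).continuous_deriv le_rfl
  obtain ⟨C, hC⟩ := (isCompact_Icc (a := (0 : ℝ)) (b := 1)).exists_bound_of_continuousOn
    hc.continuousOn
  have h1 : ∀ y, 1 < y → deriv Real.smoothTransition y = 0 := by
    intro y hy
    have : Real.smoothTransition =ᶠ[𝓝 y] fun _ => (1 : ℝ) := by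
      filter_upwards [lt_mem_nhds hy] with u hu
      exact Real.smoothTransition.one_of_one_le hu.le
    rw [this.deriv_eq]
    simp
  have h0 : ∀ y, y < 0 → deriv Real.smoothTransition y = 0 := by
    intro y hy
    have : Real.smoothTransition =ᶠ[𝓝 y] fun _ => (0 : ℝ) := by
      filter_upwards [gt_mem_nhds hy] with u hu
      exact Real.smoothTransition.zero_of_nonpos hu.le
    rw [this.deriv_eq]
    simp
  refine ⟨|C| + 1, by positivity, fun y => ?_, h1⟩
  by_cases hy0 : y < 0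
  · rw [h0 y hy0]; positivity
  by_cases hy1 : 1 < y
  · rw [h1 y hy1]; positivity
  have := hC y ⟨not_lt.1 hy0, not_lt.1 hy1⟩
  calc deriv Real.smoothTransition y ≤ ‖deriv Real.smoothTransition y‖ := Real.le_norm_self _
    _ ≤ C := this
    _ ≤ |C| + 1 := by linarith [le_abs_self C]

/-! ### The radial profile -/

/-- argument of the ramp -/
noncomputable def yy (ε t : ℝ) : ℝ := Real.log (1 / 16) - Real.log (t + ε)

/-- radial profile -/
noncomputable def B0 (ε t : ℝ) : ℝ := Yr (yy ε t)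

/-- first derivative of the profile -/
noncomputable def B1 (ε t : ℝ) : ℝ := -(Real.smoothTransition (yy ε t) / (t + ε))

/-- second derivative of the profile -/
noncomputable def B2 (ε t : ℝ) : ℝ :=
  (deriv Real.smoothTransition (yy ε t) + Real.smoothTransition (yy ε t)) / (t + ε) ^ 2

lemma hasDerivAt_yy {ε t : ℝ} (h : 0 < t + ε) : HasDerivAt (yy ε) (-(1 / (t + ε))) t := by
  unfold yy
  have h1 : HasDerivAt (fun t : ℝ => t + ε) 1 t := (hasDerivAt_id t).add_const ε
  have h2 := (h1.log h.ne').const_sub (Real.log (1 / 16))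
  exact h2

lemma hasDerivAt_B0 {ε t : ℝ} (h : 0 < t + ε) : HasDerivAt (B0 ε) (B1 ε t) t := by
  have h1 : HasDerivAt (fun t => Yr (yy ε t)) (Real.smoothTransition (yy ε t) * -(1 / (t + ε))) t :=
    (hasDerivAt_Yr (yy ε t)).comp t (hasDerivAt_yy h)
  have e : B1 ε t = Real.smoothTransition (yy ε t) * -(1 / (t + ε)) := by unfold B1; ring
  rw [e]
  exact h1

lemma hasDerivAt_B1 {ε t : ℝ} (h : 0 < t + ε) : HasDerivAt (B1 ε) (B2 ε t) t := by
  have hs : HasDerivAt Real.smoothTransition (deriv Real.smoothTransition (yy ε t)) (yy ε t) :=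
    ((Real.smoothTransition.contDiff (n := 1)).differentiable (by norm_num) _).hasDerivAt
  have h1 : HasDerivAt (fun t => Real.smoothTransition (yy ε t))
      (deriv Real.smoothTransition (yy ε t) * -(1 / (t + ε))) t := hs.comp t (hasDerivAt_yy h)
  have h2 : HasDerivAt (fun t : ℝ => t + ε) 1 t := (hasDerivAt_id t).add_const ε
  have h3 := (h1.div h2 h.ne').neg
  have e : B2 ε t = -((deriv Real.smoothTransition (yy ε t) * -(1 / (t + ε)) * (t + ε) -
      Real.smoothTransition (yy ε t) * 1) / (t + ε) ^ 2) := by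
    unfold B2
    field_simp
    ring
  rw [e]
  exact h3

lemma B_ineq {C : ℝ} (hC0 : 0 < C) (hC : ∀ y, deriv Real.smoothTransition y ≤ C)
    (hC1 : ∀ y, 1 < y → deriv Real.smoothTransition y = 0) {ε t : ℝ} (hε : 0 < ε) (ht : 0 ≤ t) :
    t * B2 ε t + B1 ε t ≤ 48 * C := by
  have hp : 0 < t + ε := by linarith
  have e : t * B2 ε t + B1 ε t =
      (t * deriv Real.smoothTransition (yy ε t) - ε * Real.smoothTransition (yy ε t)) /
        (t + ε) ^ 2 := by
    unfold B2 B1
    field_simp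
    ring
  rw [e, div_le_iff₀ (by positivity)]
  have hs := Real.smoothTransition.nonneg (yy ε t)
  have hεs : 0 ≤ ε * Real.smoothTransition (yy ε t) := by positivity
  by_cases hy : 1 < yy ε t
  · rw [hC1 _ hy]
    have : 0 ≤ 48 * C * (t + ε) ^ 2 := by positivity
    linarith
  · have h1 : 1 / 48 ≤ t + ε := by
      have h2 : Real.log (1 / 16) - 1 ≤ Real.log (t + ε) := by
        unfold yy at hy; linarith
      have h3 : (1 / 16) * Real.exp (-1) ≤ t + ε := by
        have := (Real.le_log_iff_exp_le hp).1 h2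
        rwa [sub_eq_add_neg, Real.exp_add, Real.exp_log (by norm_num)] at this
      have h4 : (1 / 3 : ℝ) ≤ Real.exp (-1) := by
        rw [Real.exp_neg]
        rw [one_div]
        apply inv_anti₀ (Real.exp_pos 1)
        have := Real.exp_one_lt_d9
        linarith
      linarith
    have h5 : t * deriv Real.smoothTransition (yy ε t) ≤ t * C :=
      mul_le_mul_of_nonneg_left (hC _) ht
    have h6 : t * C ≤ 48 * C * (t + ε) ^ 2 := by
      have h7 : t ≤ 48 * (t + ε) ^ 2 := by
        have : t ≤ t + ε := by linarith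
        nlinarith
      nlinarith
    linarith

/-! ### The bump -/

/-- The bump. -/
noncomputable def bf (c ε : ℝ) (z : ℂ) : ℝ := c * B0 ε (Complex.normSq (z - 1 / 2))

/-- The obstacle function -/
noncomputable def E0 (z : ℂ) : ℝ :=
  -(1 / 2) * Real.log (Complex.normSq z * (2 - Complex.normSq z))

lemma contDiff_normSq : ContDiff ℝ ((⊤ : ℕ∞) : WithTop ℕ∞) (Complex.normSq : ℂ → ℝ) := by
  have : (Complex.normSq : ℂ → ℝ) = fun z => Complex.re z * Complex.re z + Complex.im z * Complex.im z := by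
    funext z; exact Complex.normSq_apply z
  rw [this]
  have h1 : ContDiff ℝ ((⊤ : ℕ∞) : WithTop ℕ∞) (fun z : ℂ => Complex.re z) := Complex.reCLM.contDiff
  have h2 : ContDiff ℝ ((⊤ : ℕ∞) : WithTop ℕ∞) (fun z : ℂ => Complex.im z) := Complex.imCLM.contDiff
  exact (h1.mul h1).add (h2.mul h2)

lemma contDiffAt_B0 {ε t : ℝ} (h : 0 < t + ε) :
    ContDiffAt ℝ ((⊤ : ℕ∞) : WithTop ℕ∞) (B0 ε) t := by
  unfold B0
  refine contDiff_Yr.contDiffAt.comp t ?_
  unfold yy
  refine contDiffAt_const.sub ?_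
  exact (contDiffAt_id.add contDiffAt_const).log h.ne'

lemma contDiff_bf (c : ℝ) {ε : ℝ} (hε : 0 < ε) :
    ContDiff ℝ ((⊤ : ℕ∞) : WithTop ℕ∞) (bf c ε) := by
  rw [contDiff_iff_contDiffAt]
  intro z
  unfold bf
  refine contDiffAt_const.mul ?_
  have h1 : 0 < Complex.normSq (z - 1 / 2) + ε := by
    have := Complex.normSq_nonneg (z - 1 / 2)
    linarith
  have h2 : ContDiffAt ℝ ((⊤ : ℕ∞) : WithTop ℕ∞) (fun z : ℂ => Complex.normSq (z - 1 / 2)) z :=
    (contDiff_normSq.comp (contDiff_id.sub contDiff_const)).contDiffAt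
  exact ContDiffAt.comp (g := B0 ε) z (contDiffAt_B0 h1) h2

lemma bf_nonneg {c ε : ℝ} (hc : 0 ≤ c) (z : ℂ) : 0 ≤ bf c ε z := mul_nonneg hc (Yr_nonneg _)

lemma bf_eq_zero {c ε : ℝ} (hε : 0 < ε) {z : ℂ} (h : 1 / 4 ≤ ‖z - 1 / 2‖) : bf c ε z = 0 := by
  unfold bf B0
  rw [Yr_of_nonpos, mul_zero]
  unfold yy
  have h1 : 1 / 16 ≤ Complex.normSq (z - 1 / 2) := by
    rw [Complex.normSq_eq_norm_sq]
    nlinarith [norm_nonneg (z - 1 / 2)]
  have h2 := Real.log_le_log (by norm_num : (0 : ℝ) < 1 / 16)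
    (show 1 / 16 ≤ Complex.normSq (z - 1 / 2) + ε by linarith)
  linarith

/-- norm bounds on the support -/
lemma norm_bounds {z : ℂ} (h : ‖z - 1 / 2‖ ≤ 1 / 4) : 1 / 4 ≤ ‖z‖ ∧ ‖z‖ ≤ 3 / 4 := by
  have h1 : ‖(1 / 2 : ℂ)‖ = 1 / 2 := by simp
  have h2 := norm_sub_norm_le z (1 / 2)
  have h3 := norm_sub_norm_le (1 / 2 : ℂ) z
  rw [norm_sub_rev] at h3
  rw [h1] at h2 h3
  constructor <;> linarith

lemma E0_nonneg {z : ℂ} (h0 : 0 < Complex.normSq z) (h2 : Complex.normSq z < 2) : 0 ≤ E0 z := by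
  unfold E0
  have h3 : Complex.normSq z * (2 - Complex.normSq z) ≤ 1 := by
    nlinarith [sq_nonneg (Complex.normSq z - 1)]
  have h4 := Real.log_nonpos (mul_pos h0 (by linarith)).le h3
  linarith

lemma E0_pos {z : ℂ} (h0 : 0 < Complex.normSq z) (h2 : Complex.normSq z < 1) : 0 < E0 z := by
  unfold E0
  have h3 : Complex.normSq z * (2 - Complex.normSq z) < 1 := by
    nlinarith [mul_pos (sub_pos.2 h2) (sub_pos.2 h2)]
  have h4 := Real.log_neg (mul_pos h0 (by linarith)) h3
  linarith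

/-- Existence of the bump touching the obstacle. -/
theorem exists_bump : ∃ (c ε : ℝ) (a : ℂ), 0 < c ∧ 0 < ε ∧
    (∀ t, 0 ≤ t → c * (t * B2 ε t + B1 ε t) ≤ 1 / 8) ∧
    (∀ z : ℂ, 0 < Complex.normSq z → Complex.normSq z < 2 → bf c ε z ≤ E0 z) ∧
    bf c ε a = E0 a ∧ ‖a - 1 / 2‖ ≤ 1 / 4 := by
  obtain ⟨C, hC0, hC, hC1⟩ := exists_bound
  set δ : ℝ := 1 / (384 * C) with hδ
  have hδ0 : 0 < δ := by positivity
  -- choose ε
  obtain ⟨ε, hε, hε2⟩ : ∃ ε : ℝ, 0 < ε ∧ E0 (1 / 2) < δ * B0 ε 0 := by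
    set N : ℝ := E0 (1 / 2) / δ + 2 with hN
    have hE : 0 < E0 (1 / 2) := by
      apply E0_pos <;> (simp; try norm_num)
    have hN1 : 1 ≤ N := by
      have : 0 < E0 (1 / 2) / δ := by positivity
      linarith
    refine ⟨1 / 16 * Real.exp (-N), by positivity, ?_⟩
    have h1 : yy (1 / 16 * Real.exp (-N)) 0 = N := by
      unfold yy
      rw [zero_add, Real.log_mul (by norm_num) (Real.exp_pos _).ne', Real.log_exp]
      ring
    have h2 := Yr_ge hN1
    unfold B0
    rw [h1]
    have h3 : δ * (N - 1) = E0 (1 / 2) + δ := by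
      rw [hN]; field_simp; ring
    calc E0 (1 / 2) < E0 (1 / 2) + δ := by linarith
      _ = δ * (N - 1) := h3.symm
      _ ≤ δ * Yr N := mul_le_mul_of_nonneg_left h2 hδ0.le
  -- the ratio
  set K : Set ℂ := Metric.closedBall (1 / 2 : ℂ) (1 / 4) with hK
  have hKmem : ∀ z, z ∈ K ↔ ‖z - 1 / 2‖ ≤ 1 / 4 := fun z => by
    rw [hK, Metric.mem_closedBall, dist_eq_norm]
  have hKE : ∀ z ∈ K, 0 < Complex.normSq z ∧ Complex.normSq z < 1 := by
    intro z hz
    obtain ⟨h1, h2⟩ := norm_bounds ((hKmem z).1 hz)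
    rw [Complex.normSq_eq_norm_sq]
    constructor
    · positivity
    · nlinarith
  have hcont : ContinuousOn (fun z => bf δ ε z / E0 z) K := by
    refine (contDiff_bf δ hε).continuous.continuousOn.div ?_ (fun z hz => ?_)
    · unfold E0
      refine continuousOn_const.mul (ContinuousOn.log ?_ (fun z hz => ?_))
      · exact (contDiff_normSq.continuous.mul (continuous_const.sub contDiff_normSq.continuous)).continuousOn
      · obtain ⟨h1, h2⟩ := hKE z hz
        exact (mul_pos h1 (by linarith)).ne'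
    · obtain ⟨h1, h2⟩ := hKE z hz
      exact (E0_pos h1 h2).ne'
  obtain ⟨a, haK, hamax⟩ := (isCompact_closedBall (1 / 2 : ℂ) (1 / 4)).exists_isMaxOn
    ⟨1 / 2, by simp⟩ hcont
  set μ : ℝ := bf δ ε a / E0 a with hμ
  have hEa : 0 < E0 a := E0_pos (hKE a haK).1 (hKE a haK).2
  have hμ1 : 1 < μ := by
    have h1 : bf δ ε (1 / 2) / E0 (1 / 2) ≤ μ := hamax (show (1 / 2 : ℂ) ∈ K by rw [hKmem]; simp)
    have hE : 0 < E0 (1 / 2) := by
      apply E0_pos <;> (simp; try norm_num)
    have h2 : 1 < bf δ ε (1 / 2) / E0 (1 / 2) := by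
      rw [one_lt_div hE]
      unfold bf
      simpa using hε2
    linarith
  have hμ0 : 0 < μ := by linarith
  have hscale : ∀ z, bf (δ / μ) ε z = bf δ ε z / μ := by
    intro z; unfold bf; ring
  refine ⟨δ / μ, ε, a, by positivity, hε, ?_, ?_, ?_, (hKmem a).1 haK⟩
  · intro t ht
    have h1 := B_ineq hC0 hC hC1 hε ht
    have h2 : δ / μ ≤ δ := by
      rw [div_le_iff₀ hμ0]; nlinarith
    have h3 : 0 < δ / μ := by positivity
    calc δ / μ * (t * B2 ε t + B1 ε t) ≤ δ / μ * (48 * C) := mul_le_mul_of_nonneg_left h1 h3.le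
      _ ≤ δ * (48 * C) := mul_le_mul_of_nonneg_right h2 (by positivity)
      _ = 1 / 8 := by rw [hδ]; field_simp; norm_num
  · intro z h0 h2
    by_cases hz : z ∈ K
    · rw [hscale, div_le_iff₀ hμ0]
      have h1 : bf δ ε z / E0 z ≤ μ := hamax hz
      rw [div_le_iff₀ (E0_pos (hKE z hz).1 (hKE z hz).2)] at h1
      linarith
    · rw [bf_eq_zero hε]
      · exact E0_nonneg h0 h2
      · rw [hKmem] at hz; linarith [not_le.1 hz]
  · rw [hscale, hμ]
    have hb : bf δ ε a ≠ 0 := by
      intro h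
      rw [hμ, h] at hμ1
      simp at hμ1
      linarith
    field_simp

end Pool.Agent.H97.Green
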