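import Pool.Agent.H97.Green.DomTop

set_option autoImplicit false

open MeasureTheory Filter Topology

namespace Pool.Agent.H97.Green

lemma ae_circle_ne {r : ℝ} (hr : 0 < r) {a b : ℂ} (ha : a ≠ 0) :
    ∀ᵐ θ : ℝ, a + circleMap 0 r θ * b ≠ 0 := by
  by_cases hb : b = 0
  · simp [hb, ha]
  · have h1 : (circleMap 0 r ⁻¹' {-a / b}).Countable :=
      (Set.countable_singleton _).preimage_circleMap 0 hr.ne'
    have h2 := h1.measure_zero volume
    rw [ae_iff]
    refine measure_mono_null (fun θ hθ => ?_) h2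
    simp only [ne_eq, Decidable.not_not, Set.mem_ofPred_eq] at hθ
    simp only [Set.mem_preimage, Set.mem_singleton_iff]
    field_simp
    linear_combination hθ

/-- Mean inequality for the logarithm of an affine function. -/
lemma log_affine {r : ℝ} (hr : 0 < r) (a b : ℂ) :
    CircleIntegrable (fun ζ : ℂ => Real.log ‖a + ζ * b‖) 0 r ∧
      (a ≠ 0 → Real.log ‖a‖ ≤ Real.circleAverage (fun ζ : ℂ => Real.log ‖a + ζ * b‖) 0 r) := by
  have hint : CircleIntegrable (fun ζ : ℂ => Real.log ‖a + ζ * b‖) 0 r :=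
    MeromorphicOn.circleIntegrable_log_norm (fun _ _ => by fun_prop)
  refine ⟨hint, fun ha => ?_⟩
  by_cases hb : b = 0
  · have : (fun ζ : ℂ => Real.log ‖a + ζ * b‖) = fun _ => Real.log ‖a‖ := by
      funext ζ; simp [hb]
    rw [this, Real.circleAverage_const]
  · have e : Real.circleAverage (fun ζ : ℂ => Real.log ‖a + ζ * b‖) 0 r =
        Real.circleAverage (fun ζ : ℂ => Real.log ‖b‖ + Real.log ‖ζ - -a / b‖) 0 r := by
      unfold Real.circleAverage
      congr 1
      refine intervalIntegral.integral_congr_ae ?_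
      filter_upwards [ae_circle_ne hr (b := b) ha] with θ hθ _
      have h1 : a + circleMap 0 r θ * b = b * (circleMap 0 r θ - -a / b) := by
        field_simp; ring
      rw [h1] at hθ ⊢
      rw [norm_mul, Real.log_mul (norm_ne_zero_iff.2 hb)
        (norm_ne_zero_iff.2 (right_ne_zero_of_mul hθ))]
    have hint2 : CircleIntegrable (fun ζ : ℂ => Real.log ‖ζ - -a / b‖) 0 r :=
      MeromorphicOn.circleIntegrable_log_norm (fun _ _ => by fun_prop)
    have e2 : Real.circleAverage (fun ζ : ℂ => Real.log ‖b‖ + Real.log ‖ζ - -a / b‖) 0 r =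
        Real.log ‖b‖ + (Real.log r + Real.posLog (r⁻¹ * ‖(0 : ℂ) - -a / b‖)) := by
      rw [Real.circleAverage_fun_add (circleIntegrable_const _ _ _) hint2,
        Real.circleAverage_const]
      congr 1
      exact circleAverage_log_norm_sub_const_eq_log_radius_add_posLog hr.ne'
    rw [e, e2]
    have h3 : ‖(0 : ℂ) - -a / b‖ = ‖a‖ / ‖b‖ := by
      rw [zero_sub, neg_div, neg_neg, norm_div]
    rw [h3]
    have h4 : Real.log (r⁻¹ * (‖a‖ / ‖b‖)) ≤ Real.posLog (r⁻¹ * (‖a‖ / ‖b‖)) := by
      unfold Real.posLog; exact le_max_right _ _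
    have hna : 0 < ‖a‖ := norm_pos_iff.2 ha
    have hnb : 0 < ‖b‖ := norm_pos_iff.2 hb
    rw [Real.log_mul (by positivity) (by positivity), Real.log_inv,
      Real.log_div hna.ne' hnb.ne'] at h4
    linarith

/-- Mean value equality when the affine function does not vanish on the disc. -/
lemma log_affine_eq {r : ℝ} (hr : 0 < r) (a b : ℂ) (h : r * ‖b‖ < ‖a‖) :
    Real.circleAverage (fun ζ : ℂ => Real.log ‖a + ζ * b‖) 0 r = Real.log ‖a‖ := by
  have hna : 0 < ‖a‖ := lt_of_le_of_lt (by positivity) h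
  have ha : a ≠ 0 := norm_pos_iff.1 hna
  by_cases hb : b = 0
  · have : (fun ζ : ℂ => Real.log ‖a + ζ * b‖) = fun _ => Real.log ‖a‖ := by
      funext ζ; simp [hb]
    rw [this, Real.circleAverage_const]
  · have e : Real.circleAverage (fun ζ : ℂ => Real.log ‖a + ζ * b‖) 0 r =
        Real.circleAverage (fun ζ : ℂ => Real.log ‖b‖ + Real.log ‖ζ - -a / b‖) 0 r := by
      unfold Real.circleAverage
      congr 1
      refine intervalIntegral.integral_congr_ae ?_
      filter_upwards [ae_circle_ne hr (b := b) ha] with θ hθ _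
      have h1 : a + circleMap 0 r θ * b = b * (circleMap 0 r θ - -a / b) := by
        field_simp; ring
      rw [h1] at hθ ⊢
      rw [norm_mul, Real.log_mul (norm_ne_zero_iff.2 hb)
        (norm_ne_zero_iff.2 (right_ne_zero_of_mul hθ))]
    have hint2 : CircleIntegrable (fun ζ : ℂ => Real.log ‖ζ - -a / b‖) 0 r :=
      MeromorphicOn.circleIntegrable_log_norm (fun _ _ => by fun_prop)
    have e2 : Real.circleAverage (fun ζ : ℂ => Real.log ‖b‖ + Real.log ‖ζ - -a / b‖) 0 r =
        Real.log ‖b‖ + (Real.log r + Real.posLog (r⁻¹ * ‖(0 : ℂ) - -a / b‖)) := by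
      rw [Real.circleAverage_fun_add (circleIntegrable_const _ _ _) hint2,
        Real.circleAverage_const]
      congr 1
      exact circleAverage_log_norm_sub_const_eq_log_radius_add_posLog hr.ne'
    rw [e, e2]
    have h3 : ‖(0 : ℂ) - -a / b‖ = ‖a‖ / ‖b‖ := by
      rw [zero_sub, neg_div, neg_neg, norm_div]
    rw [h3]
    have hnb : 0 < ‖b‖ := norm_pos_iff.2 hb
    have h5 : 1 ≤ r⁻¹ * (‖a‖ / ‖b‖) := by
      rw [← div_eq_inv_mul, div_div, one_le_div (by positivity)]
      linarith [mul_comm r ‖b‖]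
    have h4 : Real.posLog (r⁻¹ * (‖a‖ / ‖b‖)) = Real.log (r⁻¹ * (‖a‖ / ‖b‖)) := by
      apply Real.posLog_eq_log
      rw [abs_of_pos (by positivity)]
      exact h5
    rw [h4, Real.log_mul (by positivity) (by positivity), Real.log_inv,
      Real.log_div hna.ne' hnb.ne']
    ring

/-- Bridge between the lower integral of the definition and circle averages. -/
lemma lint_eq {r : ℝ} {F : ℂ → ℝ} (hF : CircleIntegrable F 0 r)
    (hneg : ∀ᵐ θ : ℝ, F (circleMap 0 r θ) ≤ 0) :
    ∫⁻ θ in Set.Icc (0 : ℝ) (2 * Real.pi), ENNReal.ofReal (-F (circleMap 0 r θ)) =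
      ENNReal.ofReal (2 * Real.pi * (-Real.circleAverage F 0 r)) := by
  have hpi : (0 : ℝ) ≤ 2 * Real.pi := by positivity
  have hF' : IntegrableOn (fun θ => F (circleMap 0 r θ)) (Set.Ioc 0 (2 * Real.pi)) volume :=
    (intervalIntegrable_iff_integrableOn_Ioc_of_le hpi).1 hF
  have h2 : ∫⁻ θ in Set.Icc (0 : ℝ) (2 * Real.pi), ENNReal.ofReal (-F (circleMap 0 r θ)) =
      ∫⁻ θ in Set.Ioc (0 : ℝ) (2 * Real.pi), ENNReal.ofReal (-F (circleMap 0 r θ)) := by
    rw [restrict_Ioc_eq_restrict_Icc]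
  have hFn : Integrable (fun θ => -F (circleMap 0 r θ))
      (volume.restrict (Set.Ioc 0 (2 * Real.pi))) := hF'.neg
  rw [h2, ← ofReal_integral_eq_lintegral_ofReal hFn]
  · congr 1
    have h3 : ∫ θ in Set.Ioc (0 : ℝ) (2 * Real.pi), -F (circleMap 0 r θ) =
        -∫ θ in (0 : ℝ)..(2 * Real.pi), F (circleMap 0 r θ) := by
      rw [intervalIntegral.integral_of_le hpi, integral_neg]
    rw [h3, Real.circleAverage]
    have : (2 * Real.pi) ≠ 0 := by positivity
    rw [smul_eq_mul]
    field_simp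
  · refine ae_restrict_of_ae ?_
    filter_upwards [hneg] with θ hθ
    simp only [Pi.zero_apply]
    linarith

lemma circle_expr (r θ : ℝ) : (r : ℂ) * Complex.exp ((θ : ℂ) * Complex.I) = circleMap 0 r θ := by
  simp [circleMap]

end Pool.Agent.H97.Green
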