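import Pool.Agent.H97.Green.Penal

set_option autoImplicit false

open Filter Topology

namespace Pool.Agent.H97.Green

/-- Half logarithm of the admissible fibre ratio. -/
noncomputable def Xf (c ε : ℝ) (z : ℂ) : ℝ :=
  (1 / 2) * Real.log (2 - Complex.normSq z) + bf c ε z - (1 / 2) * Real.log (Complex.normSq z)

/-- The defining function of the algebraic curve. -/
noncomputable def hm (m : ℕ) (a : ℂ) (y : EE) : ℂ :=
  (y 1) ^ m * (y 0 - a) - (y 0) ^ m * (1 - star a * y 0)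

lemma differentiable_coord (i : Fin 2) : Differentiable ℂ (fun y : EE => y i) :=
  (EuclideanSpace.proj i : EE →L[ℂ] ℂ).differentiable

lemma differentiable_hm (m : ℕ) (a : ℂ) : Differentiable ℂ (hm m a) := by
  unfold hm
  have h0 := differentiable_coord 0
  have h1 := differentiable_coord 1
  fun_prop

lemma pick_id (a z : ℂ) : ‖z - a‖ ^ 2 = ‖1 - star a * z‖ ^ 2 - (1 - ‖a‖ ^ 2) * (1 - ‖z‖ ^ 2) := by
  rw [← Complex.normSq_eq_norm_sq, ← Complex.normSq_eq_norm_sq, ← Complex.normSq_eq_norm_sq,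
    ← Complex.normSq_eq_norm_sq]
  simp only [Complex.normSq_apply, Complex.sub_re, Complex.sub_im, Complex.one_re, Complex.one_im,
    Complex.mul_re, Complex.mul_im, Complex.star_def, Complex.conj_re, Complex.conj_im]
  ring

/-- Basic geometry of the curve. -/
lemma curve_facts {m : ℕ} (hm0 : m ≠ 0) {a : ℂ} (ha : ‖a‖ ≤ 3 / 4) {y : EE} (h0 : y 0 ≠ 0)
    (hy : hm m a y = 0) {t : ℝ} (ht0 : 0 < t) (ht1 : t < 1) (hyt : ‖y 0‖ = t * ‖y 1‖) :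
    ‖y 0‖ < 1 ∧ ‖y 0 - a‖ ≤ 2 * t ^ m ∧ (1 - (t ^ m) ^ 2) / 7 ≤ 1 - ‖y 0‖ ^ 2 ∧
      1 - ‖y 0‖ ^ 2 ≤ 7 * (1 - (t ^ m) ^ 2) := by
  set z := y 0 with hz
  have hz0 : 0 < ‖z‖ := norm_pos_iff.2 h0
  have hw0 : 0 < ‖y 1‖ := by
    by_contra h
    have : ‖y 1‖ = 0 := le_antisymm (not_lt.1 h) (norm_nonneg _)
    rw [this, mul_zero] at hyt
    exact hz0.ne' hyt
  set Y := t ^ m with hY
  have hY0 : 0 < Y := pow_pos ht0 m
  have hY1 : Y < 1 := pow_lt_one₀ ht0.le ht1 hm0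
  -- norm identity
  have e1 : ‖z - a‖ = Y * ‖1 - star a * z‖ := by
    have h1 : (y 1) ^ m * (z - a) = z ^ m * (1 - star a * z) := sub_eq_zero.1 hy
    have h2 : ‖y 1‖ ^ m * ‖z - a‖ = ‖z‖ ^ m * ‖1 - star a * z‖ := by
      rw [← norm_pow, ← norm_mul, h1, norm_mul, norm_pow]
    rw [hyt, mul_pow] at h2
    have h3 : ‖y 1‖ ^ m ≠ 0 := (pow_pos hw0 m).ne'
    apply mul_left_cancel₀ h3
    rw [h2, hY]; ring
  have hid := pick_id a z
  rw [e1, mul_pow] at hid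
  set D := ‖1 - star a * z‖ with hD
  have hD0 : 0 ≤ D := norm_nonneg _
  have ha0 : 0 ≤ ‖a‖ := norm_nonneg a
  have ha2 : ‖a‖ ^ 2 ≤ 9 / 16 := by nlinarith
  have hid2 : (1 - ‖a‖ ^ 2) * (1 - ‖z‖ ^ 2) = (1 - Y ^ 2) * D ^ 2 := by linarith
  have hYs : 0 < 1 - Y ^ 2 := by nlinarith
  have hDpos : 0 < D := by
    rcases hD0.lt_or_eq with h | h
    · exact h
    · exfalso
      rw [← h] at e1 hid2
      simp only [mul_zero] at e1
      have hza : z = a := sub_eq_zero.1 (norm_eq_zero.1 e1)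
      rw [hza] at hid2
      have : (1 - ‖a‖ ^ 2) * (1 - ‖a‖ ^ 2) = 0 := by rw [hid2]; ring
      nlinarith
  have hz1 : ‖z‖ < 1 := by
    have h1 : 0 < (1 - ‖a‖ ^ 2) * (1 - ‖z‖ ^ 2) := by rw [hid2]; positivity
    have h2 : 0 < 1 - ‖a‖ ^ 2 := by linarith
    have h3 : 0 < 1 - ‖z‖ ^ 2 := by
      by_contra h
      have := mul_nonpos_of_nonneg_of_nonpos h2.le (not_lt.1 h)
      linarith
    nlinarith
  have hprod : ‖star a * z‖ = ‖a‖ * ‖z‖ := by rw [norm_mul, norm_star]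
  have haz : ‖a‖ * ‖z‖ ≤ 3 / 4 := by nlinarith
  have hDup : D ≤ 7 / 4 := by
    have := norm_sub_le (1 : ℂ) (star a * z)
    rw [hprod, norm_one] at this
    linarith
  have hDlo : 1 - ‖a‖ ≤ D := by
    have h1 := norm_sub_norm_le (1 : ℂ) (star a * z)
    rw [hprod, norm_one] at h1
    nlinarith
  refine ⟨hz1, ?_, ?_, ?_⟩
  · rw [e1]; nlinarith
  · -- lower
    have h1 : (1 - ‖a‖) ^ 2 ≤ D ^ 2 := by
      apply pow_le_pow_left₀ (by linarith) hDlo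
    have h2 : (1 - Y ^ 2) * (1 - ‖a‖) ^ 2 ≤ (1 - ‖a‖ ^ 2) * (1 - ‖z‖ ^ 2) := by
      rw [hid2]; exact mul_le_mul_of_nonneg_left h1 hYs.le
    have h3 : (1 - ‖a‖ ^ 2) = (1 - ‖a‖) * (1 + ‖a‖) := by ring
    have h4 : 0 < 1 - ‖a‖ := by linarith
    rw [h3] at h2
    have h5 : (1 - Y ^ 2) * (1 - ‖a‖) ≤ (1 + ‖a‖) * (1 - ‖z‖ ^ 2) := by
      have : (1 - ‖a‖) * ((1 - Y ^ 2) * (1 - ‖a‖)) ≤ (1 - ‖a‖) * ((1 + ‖a‖) * (1 - ‖z‖ ^ 2)) := by
        nlinarith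
      exact le_of_mul_le_mul_left this h4
    have h6 : 0 ≤ 1 - ‖z‖ ^ 2 := by nlinarith
    nlinarith
  · have h1 : D ^ 2 ≤ 49 / 16 := by nlinarith
    have h2 : (1 - ‖a‖ ^ 2) * (1 - ‖z‖ ^ 2) ≤ (1 - Y ^ 2) * (49 / 16) := by
      rw [hid2]; exact mul_le_mul_of_nonneg_left h1 hYs.le
    have h6 : 0 ≤ 1 - ‖z‖ ^ 2 := by nlinarith
    nlinarith

end Pool.Agent.H97.Green
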