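import Pool.Agent.H97.Green.Domain

set_option autoImplicit false

open MeasureTheory Filter Topology

namespace Pool.Agent.H97.Green

lemma continuous_coord (i : Fin 2) : Continuous (fun y : EE => y i) := (pr i).continuous

lemma continuous_rf (c : ℝ) {ε : ℝ} (hε : 0 < ε) : Continuous (rf c ε) :=
  (contDiff_rf c hε).continuous

lemma isOpen_Om (c : ℝ) {ε : ℝ} (hε : 0 < ε) : IsOpen (Om c ε) :=
  isOpen_lt (continuous_rf c hε) continuous_const

lemma mem_Om {c ε : ℝ} {y : EE} : y ∈ Om c ε ↔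
    Complex.normSq (y 1) * Real.exp (-2 * bf c ε (y 0)) + Complex.normSq (y 0) < 2 := by
  unfold Om rf
  rw [Set.mem_ofPred_eq]
  constructor <;> intro h <;> linarith

lemma zero_mem_Om (c ε : ℝ) : (0 : EE) ∈ Om c ε := by
  rw [mem_Om]
  simp

lemma norm_sq_EE (y : EE) : ‖y‖ ^ 2 = ‖y 0‖ ^ 2 + ‖y 1‖ ^ 2 := by
  rw [EuclideanSpace.norm_sq_eq]; simp

lemma norm_coord_le (y : EE) (i : Fin 2) : ‖y i‖ ≤ ‖y‖ := by
  have h := norm_sq_EE y
  have h0 := norm_nonneg (y 0)
  have h1 := norm_nonneg (y 1)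
  have h2 := norm_nonneg y
  fin_cases i
  · simp only [Fin.zero_eta]
    exact le_of_sq_le_sq (by nlinarith) h2 |> fun h => h
  · simp only [Fin.mk_one]
    exact le_of_sq_le_sq (by nlinarith) h2 |> fun h => h

lemma isBounded_Om {c ε : ℝ} (hc : 0 ≤ c) (hε : 0 < ε) : Bornology.IsBounded (Om c ε) := by
  obtain ⟨M, hM⟩ := (isCompact_closedBall (0 : ℂ) 2).exists_bound_of_continuousOn
    (contDiff_bf c hε).continuous.continuousOn
  rw [isBounded_iff_forall_norm_le]
  refine ⟨2 + 2 * Real.exp (2 * M), fun y hy => ?_⟩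
  rw [mem_Om] at hy
  have h0 : 0 ≤ Complex.normSq (y 0) := Complex.normSq_nonneg _
  have h1 : 0 ≤ Complex.normSq (y 1) := Complex.normSq_nonneg _
  have he : 0 < Real.exp (-2 * bf c ε (y 0)) := Real.exp_pos _
  have h2 : Complex.normSq (y 0) < 2 := by nlinarith [mul_nonneg h1 he.le]
  have h3 : y 0 ∈ Metric.closedBall (0 : ℂ) 2 := by
    rw [mem_closedBall_zero_iff]
    rw [Complex.normSq_eq_norm_sq] at h2
    nlinarith [norm_nonneg (y 0)]
  have h4 : bf c ε (y 0) ≤ M := (Real.le_norm_self _).trans (hM _ h3)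
  have h5 : Complex.normSq (y 1) ≤ 2 * Real.exp (2 * M) := by
    have h6 : Complex.normSq (y 1) * Real.exp (-2 * bf c ε (y 0)) ≤ 2 := by linarith
    have h7 : Complex.normSq (y 1) ≤ 2 * Real.exp (2 * bf c ε (y 0)) := by
      have h8 : Real.exp (-2 * bf c ε (y 0)) * Real.exp (2 * bf c ε (y 0)) = 1 := by
        rw [← Real.exp_add]; simp
      calc Complex.normSq (y 1) = Complex.normSq (y 1) *
            (Real.exp (-2 * bf c ε (y 0)) * Real.exp (2 * bf c ε (y 0))) := by rw [h8, mul_one]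
        _ = (Complex.normSq (y 1) * Real.exp (-2 * bf c ε (y 0))) *
              Real.exp (2 * bf c ε (y 0)) := by ring
        _ ≤ 2 * Real.exp (2 * bf c ε (y 0)) :=
            mul_le_mul_of_nonneg_right h6 (Real.exp_pos _).le
    refine h7.trans (mul_le_mul_of_nonneg_left ?_ (by norm_num))
    exact Real.exp_le_exp.2 (by linarith)
  have h6 := norm_sq_EE y
  rw [← Complex.normSq_eq_norm_sq, ← Complex.normSq_eq_norm_sq] at h6
  have h7 : ‖y‖ ^ 2 ≤ 2 + 2 * Real.exp (2 * M) := by rw [h6]; linarith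
  have h8 : 1 ≤ 2 + 2 * Real.exp (2 * M) := by nlinarith [Real.exp_pos (2 * M)]
  nlinarith [norm_nonneg y]

lemma isConnected_Om (c ε : ℝ) : IsConnected (Om c ε) := by
  refine ⟨⟨0, zero_mem_Om c ε⟩, isPreconnected_of_forall 0 (fun y hy => ?_)⟩
  set f1 : ℝ → EE := fun s => !₂[y 0, 0] + s • !₂[0, y 1] with hf1
  set f2 : ℝ → EE := fun s => s • !₂[y 0, 0] with hf2
  have hc1 : Continuous f1 := by fun_prop
  have hc2 : Continuous f2 := by fun_prop
  rw [mem_Om] at hy
  have h1 : 0 ≤ Complex.normSq (y 1) := Complex.normSq_nonneg _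
  have h0 : 0 ≤ Complex.normSq (y 0) := Complex.normSq_nonneg _
  have he : 0 < Real.exp (-2 * bf c ε (y 0)) := Real.exp_pos _
  have hve : 0 ≤ Complex.normSq (y 1) * Real.exp (-2 * bf c ε (y 0)) := mul_nonneg h1 he.le
  refine ⟨f1 '' Set.Icc 0 1 ∪ f2 '' Set.Icc 0 1, ?_, ?_, ?_, ?_⟩
  · rintro x (⟨s, hs, rfl⟩ | ⟨s, hs, rfl⟩)
    · rw [mem_Om]
      have e0 : (f1 s) 0 = y 0 := by simp [hf1]
      have e1 : (f1 s) 1 = (s : ℂ) * y 1 := by simp [hf1]
      rw [e0, e1, Complex.normSq_mul, Complex.normSq_ofReal]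
      have hs2 : s * s ≤ 1 := by nlinarith [hs.1, hs.2]
      have : s * s * Complex.normSq (y 1) * Real.exp (-2 * bf c ε (y 0)) ≤
          Complex.normSq (y 1) * Real.exp (-2 * bf c ε (y 0)) := by
        calc s * s * Complex.normSq (y 1) * Real.exp (-2 * bf c ε (y 0))
            = s * s * (Complex.normSq (y 1) * Real.exp (-2 * bf c ε (y 0))) := by ring
          _ ≤ 1 * (Complex.normSq (y 1) * Real.exp (-2 * bf c ε (y 0))) :=
              mul_le_mul_of_nonneg_right hs2 hve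
          _ = _ := one_mul _
      linarith
    · rw [mem_Om]
      have e0 : (f2 s) 0 = (s : ℂ) * y 0 := by simp [hf2]
      have e1 : (f2 s) 1 = 0 := by simp [hf2]
      rw [e0, e1, Complex.normSq_mul, Complex.normSq_ofReal]
      simp only [Complex.normSq_zero, zero_mul, zero_add]
      have hs2 : s * s ≤ 1 := by nlinarith [hs.1, hs.2]
      have : s * s * Complex.normSq (y 0) ≤ 1 * Complex.normSq (y 0) :=
        mul_le_mul_of_nonneg_right hs2 h0
      linarith
  · right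
    exact ⟨0, ⟨le_rfl, zero_le_one⟩, by simp [hf2]⟩
  · left
    refine ⟨1, ⟨zero_le_one, le_rfl⟩, ?_⟩
    ext i
    fin_cases i <;> simp [hf1]
  · refine IsPreconnected.union (!₂[y 0, 0] : EE) ?_ ?_ (isPreconnected_Icc.image _ hc1.continuousOn)
      (isPreconnected_Icc.image _ hc2.continuousOn)
    · exact ⟨0, ⟨le_rfl, zero_le_one⟩, by simp [hf1]⟩
    · exact ⟨1, ⟨zero_le_one, le_rfl⟩, by simp [hf2]⟩

end Pool.Agent.H97.Green
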