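import Pool.Agent.H97.Green.Bump

set_option autoImplicit false

open MeasureTheory Filter Topology

namespace Pool.Agent.H97.Green

/-- The ambient space. -/
abbrev EE : Type := EuclideanSpace ℂ (Fin 2)

/-- Defining function. -/
noncomputable def rf (c ε : ℝ) (y : EE) : ℝ :=
  Complex.normSq (y 1) * Real.exp (-2 * bf c ε (y 0)) + Complex.normSq (y 0) - 2

/-- The domain. -/
def Om (c ε : ℝ) : Set EE := {y | rf c ε y < 0}

/-- Coordinate projections as real linear maps. -/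
noncomputable def pr (i : Fin 2) : EE →L[ℝ] ℂ :=
  (EuclideanSpace.proj i : EE →L[ℂ] ℂ).restrictScalars ℝ

lemma pr_apply (i : Fin 2) (y : EE) : pr i y = y i := rfl

lemma contDiff_rf (c : ℝ) {ε : ℝ} (hε : 0 < ε) :
    ContDiff ℝ ((⊤ : ℕ∞) : WithTop ℕ∞) (rf c ε) := by
  have h0 : ContDiff ℝ ((⊤ : ℕ∞) : WithTop ℕ∞) (fun y : EE => y 0) := (pr 0).contDiff
  have h1 : ContDiff ℝ ((⊤ : ℕ∞) : WithTop ℕ∞) (fun y : EE => y 1) := (pr 1).contDiff
  unfold rf
  refine ((ContDiff.mul (contDiff_normSq.comp h1) (ContDiff.exp ?_)).add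
    (contDiff_normSq.comp h0)).sub contDiff_const
  exact contDiff_const.mul ((contDiff_bf c hε).comp h0)

/-! ### second derivatives along lines -/

lemma second_deriv_line {E : Type*} [NormedAddCommGroup E] [NormedSpace ℝ E] {ρ : E → ℝ}
    (hρ : ContDiff ℝ 2 ρ) (y ξ : E) {g' : ℝ → ℝ} {g2 : ℝ}
    (h1 : ∀ t, HasDerivAt (fun t : ℝ => ρ (y + t • ξ)) (g' t) t) (h2 : HasDerivAt g' g2 0) :
    fderiv ℝ ρ y ξ = g' 0 ∧ fderiv ℝ (fderiv ℝ ρ) y ξ ξ = g2 := by
  have hline : ∀ t : ℝ, HasDerivAt (fun t : ℝ => y + t • ξ) ξ t := by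
    intro t
    have := ((hasDerivAt_id t).smul_const ξ).const_add y
    simpa using this
  have hg' : ∀ t, g' t = fderiv ℝ ρ (y + t • ξ) ξ := by
    intro t
    have h3 : HasFDerivAt ρ (fderiv ℝ ρ (y + t • ξ)) (y + t • ξ) :=
      (hρ.differentiable (by norm_num) _).hasFDerivAt
    exact (h1 t).unique (h3.comp_hasDerivAt t (hline t))
  refine ⟨by rw [hg' 0]; simp, ?_⟩
  have hd : ContDiff ℝ 1 (fderiv ℝ ρ) := hρ.fderiv_right (by norm_num)
  have h4 : HasFDerivAt (fderiv ℝ ρ) (fderiv ℝ (fderiv ℝ ρ) (y + (0 : ℝ) • ξ)) (y + (0 : ℝ) • ξ) :=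
    (hd.differentiable (by norm_num) _).hasFDerivAt
  have h5 := (h4.comp_hasDerivAt (0 : ℝ) (hline 0)).clm_apply (hasDerivAt_const (0 : ℝ) ξ)
  have h6 : g' = fun t => fderiv ℝ ρ (y + t • ξ) ξ := funext hg'
  rw [h6] at h2
  have h7 := h2.unique h5
  rw [h7]
  simp

/-- derivatives of the one-variable restriction. -/
lemma line_g (v0 v1 v2 r0 r1 r2 p0 p1 p2 c : ℝ) {ε : ℝ} (hε : 0 < ε)
    (hR : ∀ t : ℝ, 0 ≤ r0 + 2 * r1 * t + r2 * t ^ 2) :
    (∀ t : ℝ, HasDerivAt (fun t : ℝ => (v0 + 2 * v1 * t + v2 * t ^ 2) *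
        Real.exp (-2 * (c * B0 ε (r0 + 2 * r1 * t + r2 * t ^ 2))) +
        (p0 + 2 * p1 * t + p2 * t ^ 2) - 2)
      ((2 * v1 + 2 * v2 * t) * Real.exp (-2 * (c * B0 ε (r0 + 2 * r1 * t + r2 * t ^ 2))) +
        (v0 + 2 * v1 * t + v2 * t ^ 2) *
          (Real.exp (-2 * (c * B0 ε (r0 + 2 * r1 * t + r2 * t ^ 2))) *
            (-2 * (c * (B1 ε (r0 + 2 * r1 * t + r2 * t ^ 2) * (2 * r1 + 2 * r2 * t))))) +
        (2 * p1 + 2 * p2 * t)) t) ∧
    HasDerivAt (fun t : ℝ =>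
      (2 * v1 + 2 * v2 * t) * Real.exp (-2 * (c * B0 ε (r0 + 2 * r1 * t + r2 * t ^ 2))) +
        (v0 + 2 * v1 * t + v2 * t ^ 2) *
          (Real.exp (-2 * (c * B0 ε (r0 + 2 * r1 * t + r2 * t ^ 2))) *
            (-2 * (c * (B1 ε (r0 + 2 * r1 * t + r2 * t ^ 2) * (2 * r1 + 2 * r2 * t))))) +
        (2 * p1 + 2 * p2 * t))
      (Real.exp (-2 * (c * B0 ε r0)) * (2 * v2 - 16 * (c * B1 ε r0) * (v1 * r1) +
        16 * (c * B1 ε r0) ^ 2 * v0 * r1 ^ 2 - 8 * (c * B2 ε r0) * v0 * r1 ^ 2 -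
        4 * (c * B1 ε r0) * v0 * r2) + 2 * p2) 0 := by
  have hq : ∀ a b d t : ℝ, HasDerivAt (fun t : ℝ => a + 2 * b * t + d * t ^ 2) (2 * b + 2 * d * t) t := by
    intro a b d t
    have h := (((hasDerivAt_id t).const_mul (2 * b)).const_add a).add
      (((hasDerivAt_id t).pow 2).const_mul d)
    refine h.congr_deriv ?_
    simp; ring
  have hl : ∀ b d t : ℝ, HasDerivAt (fun t : ℝ => 2 * b + 2 * d * t) (2 * d) t := by
    intro b d t
    have h := ((hasDerivAt_id t).const_mul (2 * d)).const_add (2 * b)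
    refine h.congr_deriv ?_
    simp
  have hpos : ∀ t : ℝ, 0 < (r0 + 2 * r1 * t + r2 * t ^ 2) + ε := fun t => by linarith [hR t]
  have hB0 : ∀ t : ℝ, HasDerivAt (fun t : ℝ => B0 ε (r0 + 2 * r1 * t + r2 * t ^ 2))
      (B1 ε (r0 + 2 * r1 * t + r2 * t ^ 2) * (2 * r1 + 2 * r2 * t)) t := fun t =>
    HasDerivAt.comp (h₂ := B0 ε) t (hasDerivAt_B0 (hpos t)) (hq r0 r1 r2 t)
  have hB1 : ∀ t : ℝ, HasDerivAt (fun t : ℝ => B1 ε (r0 + 2 * r1 * t + r2 * t ^ 2))
      (B2 ε (r0 + 2 * r1 * t + r2 * t ^ 2) * (2 * r1 + 2 * r2 * t)) t := fun t =>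
    HasDerivAt.comp (h₂ := B1 ε) t (hasDerivAt_B1 (hpos t)) (hq r0 r1 r2 t)
  have hE : ∀ t : ℝ, HasDerivAt
      (fun t : ℝ => Real.exp (-2 * (c * B0 ε (r0 + 2 * r1 * t + r2 * t ^ 2))))
      (Real.exp (-2 * (c * B0 ε (r0 + 2 * r1 * t + r2 * t ^ 2))) *
        (-2 * (c * (B1 ε (r0 + 2 * r1 * t + r2 * t ^ 2) * (2 * r1 + 2 * r2 * t))))) t := fun t =>
    (((hB0 t).const_mul c).const_mul (-2)).exp
  constructor
  · intro t
    exact (((hq v0 v1 v2 t).mul (hE t)).add (hq p0 p1 p2 t)).sub_const 2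
  · have h1 := (((hl v1 v2 0).mul (hE 0)).add ((hq v0 v1 v2 0).mul ((hE 0).mul
      ((((hB1 0).mul (hl r1 r2 0)).const_mul c).const_mul (-2))))).add (hl p1 p2 0)
    refine h1.congr_deriv ?_
    simp only [Pi.mul_apply, mul_zero, add_zero, ne_eq, OfNat.ofNat_ne_zero, not_false_eq_true,
      zero_pow]
    ring

lemma normSq_line (u η : ℂ) (t : ℝ) :
    Complex.normSq (u + t • η) = Complex.normSq u + 2 * (star u * η).re * t +
      Complex.normSq η * t ^ 2 := by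
  simp only [Complex.normSq_apply, Complex.add_re, Complex.add_im, Complex.real_smul,
    Complex.mul_re, Complex.mul_im, Complex.ofReal_re, Complex.ofReal_im, Complex.star_def,
    Complex.conj_re, Complex.conj_im]
  ring

lemma rf_line (c ε : ℝ) (y ξ : EE) (t : ℝ) :
    rf c ε (y + t • ξ) =
      (Complex.normSq (y 1) + 2 * (star (y 1) * ξ 1).re * t + Complex.normSq (ξ 1) * t ^ 2) *
        Real.exp (-2 * (c * B0 ε (Complex.normSq (y 0 - 1 / 2) +
          2 * (star (y 0 - 1 / 2) * ξ 0).re * t + Complex.normSq (ξ 0) * t ^ 2))) +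
        (Complex.normSq (y 0) + 2 * (star (y 0) * ξ 0).re * t + Complex.normSq (ξ 0) * t ^ 2) - 2 := by
  have h : ∀ i, (y + t • ξ) i = y i + t • ξ i := fun i => by simp
  unfold rf bf
  rw [h 0, h 1, normSq_line, normSq_line]
  have h2 : y 0 + t • ξ 0 - 1 / 2 = (y 0 - 1 / 2) + t • ξ 0 := by ring
  rw [h2, normSq_line]

lemma rf_derivs {c ε : ℝ} (hε : 0 < ε) (y ξ : EE) :
    fderiv ℝ (rf c ε) y ξ = 2 * (star (y 1) * ξ 1).re * Real.exp (-2 * bf c ε (y 0)) +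
      Complex.normSq (y 1) * (Real.exp (-2 * bf c ε (y 0)) *
        (-2 * (c * (B1 ε (Complex.normSq (y 0 - 1 / 2)) * (2 * (star (y 0 - 1 / 2) * ξ 0).re))))) +
      2 * (star (y 0) * ξ 0).re ∧
    fderiv ℝ (fderiv ℝ (rf c ε)) y ξ ξ =
      Real.exp (-2 * bf c ε (y 0)) * (2 * Complex.normSq (ξ 1) -
        16 * (c * B1 ε (Complex.normSq (y 0 - 1 / 2))) *
          ((star (y 1) * ξ 1).re * (star (y 0 - 1 / 2) * ξ 0).re) +
        16 * (c * B1 ε (Complex.normSq (y 0 - 1 / 2))) ^ 2 * Complex.normSq (y 1) *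
          (star (y 0 - 1 / 2) * ξ 0).re ^ 2 -
        8 * (c * B2 ε (Complex.normSq (y 0 - 1 / 2))) * Complex.normSq (y 1) *
          (star (y 0 - 1 / 2) * ξ 0).re ^ 2 -
        4 * (c * B1 ε (Complex.normSq (y 0 - 1 / 2))) * Complex.normSq (y 1) *
          Complex.normSq (ξ 0)) + 2 * Complex.normSq (ξ 0) := by
  have hR : ∀ t : ℝ, 0 ≤ Complex.normSq (y 0 - 1 / 2) +
      2 * (star (y 0 - 1 / 2) * ξ 0).re * t + Complex.normSq (ξ 0) * t ^ 2 := by
    intro t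
    rw [← normSq_line]
    exact Complex.normSq_nonneg _
  obtain ⟨h1, h2⟩ := line_g (Complex.normSq (y 1)) (star (y 1) * ξ 1).re (Complex.normSq (ξ 1))
    (Complex.normSq (y 0 - 1 / 2)) (star (y 0 - 1 / 2) * ξ 0).re (Complex.normSq (ξ 0))
    (Complex.normSq (y 0)) (star (y 0) * ξ 0).re (Complex.normSq (ξ 0)) c hε hR
  have h3 : (fun t : ℝ => rf c ε (y + t • ξ)) = _ := funext (fun t => rf_line c ε y ξ t)
  have hsm : ContDiff ℝ 2 (rf c ε) := (contDiff_rf c hε).of_le (by norm_cast)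
  have h4 := second_deriv_line hsm y ξ (g' := _) (g2 := _) (fun t => by rw [h3]; exact h1 t) h2
  obtain ⟨h5, h6⟩ := h4
  refine ⟨?_, ?_⟩
  · rw [h5]
    unfold bf
    simp only [mul_zero, add_zero, ne_eq, OfNat.ofNat_ne_zero, not_false_eq_true, zero_pow]
  · rw [h6]
    unfold bf
    rfl

lemma re_sq_add (u η : ℂ) : (star u * η).re ^ 2 + (star u * (Complex.I * η)).re ^ 2 =
    Complex.normSq u * Complex.normSq η := by
  simp only [Complex.normSq_apply, Complex.mul_re, Complex.mul_im, Complex.star_def,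
    Complex.conj_re, Complex.conj_im, Complex.I_re, Complex.I_im]
  ring

/-- elementary inequality -/
lemma levi_ineq {v0 v2 r0 r2 k X : ℝ} (hv0 : 0 ≤ v0) (hv2 : 0 ≤ v2) (hr0 : 0 ≤ r0) (hr2 : 0 ≤ r2)
    (hX : X ^ 2 ≤ (v0 * v2) * (r0 * r2)) : 0 ≤ 4 * v2 - 16 * k * X + 16 * k ^ 2 * v0 * (r0 * r2) := by
  rcases hv2.eq_or_lt with h | h
  · have h1 : X = 0 := by
      rw [← h] at hX
      simp at hX
      exact hX
    rw [← h, h1]
    have : 0 ≤ k ^ 2 * v0 * (r0 * r2) := by positivity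
    linarith
  · have h1 : 0 ≤ v2 * (4 * v2 - 16 * k * X + 16 * k ^ 2 * v0 * (r0 * r2)) := by
      have h2 : v2 * (4 * v2 - 16 * k * X + 16 * k ^ 2 * v0 * (r0 * r2)) =
          4 * (v2 - 2 * k * X) ^ 2 + 16 * k ^ 2 * ((v0 * v2) * (r0 * r2) - X ^ 2) := by ring
      rw [h2]
      have : 0 ≤ k ^ 2 * ((v0 * v2) * (r0 * r2) - X ^ 2) := mul_nonneg (sq_nonneg k) (by linarith)
      nlinarith [sq_nonneg (v2 - 2 * k * X)]
    exact nonneg_of_mul_nonneg_right h1 h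

theorem rf_levi {c ε : ℝ} (hε : 0 < ε)
    (hB : ∀ t, 0 ≤ t → c * (t * B2 ε t + B1 ε t) ≤ 1 / 8) (y : EE) (hy : rf c ε y = 0) :
    fderiv ℝ (rf c ε) y ≠ 0 ∧ ∀ ξ : EE, ξ ≠ 0 →
      0 < fderiv ℝ (fderiv ℝ (rf c ε)) y ξ ξ +
        fderiv ℝ (fderiv ℝ (rf c ε)) y (Complex.I • ξ) (Complex.I • ξ) := by
  constructor
  · intro h0
    by_cases hw : y 1 = 0
    · have h1 := (rf_derivs (c := c) hε y !₂[y 0, 0]).1
      rw [h0, hw] at h1
      simp only [zero_apply, star_zero, zero_mul, Complex.zero_re, mul_zero,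
        Complex.normSq_zero, zero_add] at h1
      have h2 : (star (y 0) * (!₂[y 0, 0] : EE) 0).re = Complex.normSq (y 0) := by
        simp [Complex.normSq_apply, Complex.mul_re]
      rw [h2] at h1
      unfold rf at hy
      rw [hw] at hy
      simp only [Complex.normSq_zero, zero_mul, zero_add] at hy
      linarith
    · have h1 := (rf_derivs (c := c) hε y !₂[0, y 1]).1
      rw [h0] at h1
      have h2 : (star (y 1) * (!₂[0, y 1] : EE) 1).re = Complex.normSq (y 1) := by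
        simp [Complex.normSq_apply, Complex.mul_re]
      have h3 : (!₂[0, y 1] : EE) 0 = 0 := by simp
      rw [h2, h3] at h1
      simp only [zero_apply, mul_zero, Complex.zero_re, add_zero] at h1
      have h4 : 0 < Complex.normSq (y 1) := Complex.normSq_pos.2 hw
      have h5 : 0 < 2 * Complex.normSq (y 1) * Real.exp (-2 * bf c ε (y 0)) := by positivity
      linarith
  · intro ξ hξ
    have hI : ∀ i, (Complex.I • ξ) i = Complex.I * ξ i := fun i => by simp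
    rw [(rf_derivs hε y ξ).2, (rf_derivs hε y (Complex.I • ξ)).2]
    simp only [hI, Complex.normSq_mul, Complex.normSq_I, one_mul]
    set e := Real.exp (-2 * bf c ε (y 0)) with he
    have he0 : 0 < e := Real.exp_pos _
    set v0 := Complex.normSq (y 1)
    set v2 := Complex.normSq (ξ 1)
    set r0 := Complex.normSq (y 0 - 1 / 2)
    set r2 := Complex.normSq (ξ 0)
    set p0 := Complex.normSq (y 0)
    have hv0 : 0 ≤ v0 := Complex.normSq_nonneg _
    have hv2 : 0 ≤ v2 := Complex.normSq_nonneg _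
    have hr0 : 0 ≤ r0 := Complex.normSq_nonneg _
    have hr2 : 0 ≤ r2 := Complex.normSq_nonneg _
    have hp0 : 0 ≤ p0 := Complex.normSq_nonneg _
    have hev : v0 * e = 2 - p0 := by
      have : v0 * e + p0 - 2 = 0 := hy
      linarith
    have hA := re_sq_add (y 1) (ξ 1)
    have hC := re_sq_add (y 0 - 1 / 2) (ξ 0)
    set A := (star (y 1) * ξ 1).re
    set A' := (star (y 1) * (Complex.I * ξ 1)).re
    set C := (star (y 0 - 1 / 2) * ξ 0).re
    set C' := (star (y 0 - 1 / 2) * (Complex.I * ξ 0)).re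
    have hX : (A * C + A' * C') ^ 2 ≤ (v0 * v2) * (r0 * r2) := by
      rw [← hA, ← hC]
      nlinarith [sq_nonneg (A * C' - A' * C)]
    set k := c * B1 ε r0 with hk
    have hBr := hB r0 hr0
    have h1 := levi_ineq (k := k) hv0 hv2 hr0 hr2 hX
    have key : e * (2 * v2 - 16 * k * (A * C) + 16 * k ^ 2 * v0 * C ^ 2 -
        8 * (c * B2 ε r0) * v0 * C ^ 2 - 4 * k * v0 * r2) + 2 * r2 +
        (e * (2 * v2 - 16 * k * (A' * C') + 16 * k ^ 2 * v0 * C' ^ 2 -
        8 * (c * B2 ε r0) * v0 * C' ^ 2 - 4 * k * v0 * r2) + 2 * r2) =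
        e * (4 * v2 - 16 * k * (A * C + A' * C') + 16 * k ^ 2 * v0 * (r0 * r2)) +
        (4 * r2 - 8 * (v0 * e) * r2 * (c * (r0 * B2 ε r0 + B1 ε r0))) := by
      have : r0 * r2 = C ^ 2 + C' ^ 2 := hC.symm
      rw [hk]
      linear_combination (e * v0 * (16 * (c * B1 ε r0) ^ 2 - 8 * (c * B2 ε r0))) * (-this)
    rw [key]
    have h2 : 0 ≤ e * (4 * v2 - 16 * k * (A * C + A' * C') + 16 * k ^ 2 * v0 * (r0 * r2)) :=
      mul_nonneg he0.le h1
    have hve : 0 ≤ v0 * e := mul_nonneg hv0 he0.le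
    have h3 : (v0 * e) * r2 * (c * (r0 * B2 ε r0 + B1 ε r0)) ≤ (v0 * e) * r2 * (1 / 8) :=
      mul_le_mul_of_nonneg_left hBr (mul_nonneg hve hr2)
    have h4 : 2 * r2 + p0 * r2 ≤ 4 * r2 - 8 * (v0 * e) * r2 * (c * (r0 * B2 ε r0 + B1 ε r0)) := by
      have h5 : (v0 * e) * r2 * (1 / 8) = (2 - p0) * r2 / 8 := by rw [hev]; ring
      have h6 : 8 * (v0 * e) * r2 * (c * (r0 * B2 ε r0 + B1 ε r0)) =
          8 * ((v0 * e) * r2 * (c * (r0 * B2 ε r0 + B1 ε r0))) := by ring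
      rw [h6]
      linarith
    rcases hr2.eq_or_lt with h5 | h5
    · -- `ξ 0 = 0`
      have h6 : v2 ≠ 0 := by
        intro h7
        apply hξ
        have h8 : ξ 0 = 0 := Complex.normSq_eq_zero.1 h5.symm
        have h9 : ξ 1 = 0 := Complex.normSq_eq_zero.1 h7
        ext i
        fin_cases i
        · exact h8
        · exact h9
      have h7 : 0 < v2 := lt_of_le_of_ne hv2 (Ne.symm h6)
      have h8 : A * C + A' * C' = 0 := by
        rw [← h5] at hX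
        simp only [mul_zero] at hX
        exact pow_eq_zero_iff (two_ne_zero) |>.1 (le_antisymm hX (sq_nonneg _))
      rw [h8, ← h5]
      simp only [mul_zero, add_zero, sub_zero, zero_mul]
      positivity
    · have : 0 < 2 * r2 + p0 * r2 := by positivity
      linarith

end Pool.Agent.H97.Green
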