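import Pool.Agent.H97.Green.Upper

set_option autoImplicit false

open Filter Topology

namespace Pool.Agent.H97.Green

lemma taylor2 {H : ℝ → ℝ} (hH : ContDiffAt ℝ 2 H 0) : ∃ p0 p1 p2 : ℝ,
    (fun x => H x - (p0 + p1 * x + p2 * x ^ 2)) =o[𝓝 0] fun x : ℝ => x ^ 2 := by
  obtain ⟨u, hu, hHu⟩ := hH.contDiffOn (m := 2) le_rfl (by simp)
  obtain ⟨δ, hδ, hball⟩ := Metric.mem_nhds_iff.1 hu
  have h1 : ContDiffOn ℝ (2 : ℕ) H (Metric.ball 0 δ) := (hHu.mono hball)
  have h2 := taylor_isLittleO (convex_ball (0 : ℝ) δ) (Metric.mem_ball_self hδ) h1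
  rw [Metric.isOpen_ball.nhdsWithin_eq (Metric.mem_ball_self hδ)] at h2
  refine ⟨H 0, iteratedDerivWithin 1 H (Metric.ball 0 δ) 0,
    2⁻¹ * iteratedDerivWithin 2 H (Metric.ball 0 δ) 0, ?_⟩
  refine h2.congr' (Eventually.of_forall fun x => ?_) (Eventually.of_forall fun x => by simp)
  simp only [taylorWithinEval_succ, taylor_within_zero_eval]
  simp [Nat.factorial]
  ring

lemma no_C2 {H : ℝ → ℝ} (hH : ContDiffAt ℝ 2 H 0) {A : ℝ}
    (h1 : ∀ᶠ m : ℕ in atTop, (Real.log 2 / m) ^ 2 / 8 ≤ H (-(Real.log 2 / m)))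
    (h0 : ∀ᶠ m : ℕ in atTop, 0 ≤ H (Real.log 2 / m))
    (h2 : ∀ᶠ m : ℕ in atTop, H (Real.log 2 / m) ≤ A / (m : ℝ) ^ 2 * (Real.log 2 / m)) : False := by
  obtain ⟨p0, p1, p2, hp⟩ := taylor2 hH
  have hl2 : 0 < Real.log 2 := Real.log_pos (by norm_num)
  set s : ℕ → ℝ := fun m => Real.log 2 / m with hs
  have hcast : Tendsto (fun m : ℕ => (m : ℝ)) atTop atTop := tendsto_natCast_atTop_atTop
  have hs0 : Tendsto s atTop (𝓝 0) := tendsto_const_nhds.div_atTop hcast
  have hspos : ∀ᶠ m : ℕ in atTop, 0 < s m := by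
    filter_upwards [eventually_gt_atTop 0] with m hm
    have : (0 : ℝ) < m := by exact_mod_cast hm
    simp only [hs]; positivity
  have hR := hp.tendsto_div_nhds_zero
  have hR1 : Tendsto (fun m => (H (s m) - (p0 + p1 * s m + p2 * s m ^ 2)) / s m ^ 2) atTop (𝓝 0) :=
    hR.comp hs0
  have hs0' : Tendsto (fun m => -s m) atTop (𝓝 0) := by simpa using hs0.neg
  have hR2 : Tendsto (fun m => (H (-s m) - (p0 + p1 * (-s m) + p2 * (-s m) ^ 2)) / (-s m) ^ 2)
      atTop (𝓝 0) := hR.comp hs0'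
  -- H(s_m)/s_m^2 → 0
  have hA : Tendsto (fun m => H (s m) / s m ^ 2) atTop (𝓝 0) := by
    have hup : Tendsto (fun m : ℕ => (A / Real.log 2) / (m : ℝ)) atTop (𝓝 0) :=
      tendsto_const_nhds.div_atTop hcast
    refine tendsto_of_tendsto_of_tendsto_of_le_of_le' tendsto_const_nhds hup ?_ ?_
    · filter_upwards [h0] with m hm
      exact div_nonneg hm (sq_nonneg _)
    · filter_upwards [h2, hspos, eventually_gt_atTop 0] with m hm hsm hm0
      have hmp : (0 : ℝ) < m := by exact_mod_cast hm0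
      rw [div_le_iff₀ (by positivity)]
      refine hm.trans (le_of_eq ?_)
      simp only [hs]
      field_simp
  have hB : Tendsto (fun m => (p0 + p1 * s m + p2 * s m ^ 2) / s m ^ 2) atTop (𝓝 0) := by
    have := hA.sub hR1
    rw [sub_zero] at this
    refine this.congr (fun m => ?_)
    ring
  have hp0 : p0 = 0 := by
    have e1 : Tendsto (fun m => (p0 + p1 * s m + p2 * s m ^ 2)) atTop (𝓝 0) := by
      have := hB.mul (hs0.pow 2)
      rw [zero_mul] at this
      refine this.congr' ?_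
      filter_upwards [hspos] with m hm
      field_simp
    have e2 : Tendsto (fun m => (p0 + p1 * s m + p2 * s m ^ 2)) atTop
        (𝓝 (p0 + p1 * 0 + p2 * 0 ^ 2)) :=
      (tendsto_const_nhds.add (hs0.const_mul p1)).add ((hs0.pow 2).const_mul p2)
    have := tendsto_nhds_unique e1 e2
    simpa using this.symm
  subst hp0
  have hp1 : p1 = 0 := by
    have e1 : Tendsto (fun m => (p1 + p2 * s m)) atTop (𝓝 0) := by
      have := hB.mul hs0
      rw [zero_mul] at this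
      refine this.congr' ?_
      filter_upwards [hspos] with m hm
      field_simp
      ring
    have e2 : Tendsto (fun m => (p1 + p2 * s m)) atTop (𝓝 (p1 + p2 * 0)) :=
      (tendsto_const_nhds.add (hs0.const_mul p2))
    have := tendsto_nhds_unique e1 e2
    simpa using this.symm
  subst hp1
  have hp2 : p2 = 0 := by
    have e1 : Tendsto (fun _ : ℕ => p2) atTop (𝓝 0) := by
      refine hB.congr' ?_
      filter_upwards [hspos] with m hm
      field_simp
      ring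
    exact tendsto_nhds_unique tendsto_const_nhds e1
  subst hp2
  have hC : ∀ᶠ m : ℕ in atTop, (H (-s m) - (0 + 0 * (-s m) + 0 * (-s m) ^ 2)) / (-s m) ^ 2 < 1 / 8 :=
    hR2.eventually (gt_mem_nhds (by norm_num))
  obtain ⟨m, hm1, hm2, hm3⟩ := ((hC.and (h1.and hspos))).exists
  have : (-s m) ^ 2 = s m ^ 2 := by ring
  rw [this, div_lt_iff₀ (by positivity)] at hm1
  have h4 : s m ^ 2 / 8 ≤ H (-s m) := hm2
  linarith

lemma Fx_pt {z : ℂ} (hz : z ≠ 0) (x s : ℝ) :
    Fx x (pt z s) = ((2 + x) * Real.log ‖z‖ + s - x ^ 2 / 8) / (2 + x) := by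
  unfold Fx
  rw [log_pt_one hz, pt_zero]
  ring

lemma pt_ne {z : ℂ} (hz : z ≠ 0) (s : ℝ) : pt z s 1 ≠ 0 := by
  rw [pt_one]
  exact mul_ne_zero (Complex.ofReal_ne_zero.2 (Real.exp_pos s).ne') hz

lemma continuous_pt (z : ℂ) : Continuous (pt z) := by
  unfold pt
  refine (PiLp.continuous_toLp 2 _).comp (continuous_pi fun i => ?_)
  fin_cases i
  · exact continuous_const
  · exact (Complex.continuous_ofReal.comp Real.continuous_exp).mul continuous_const

lemma pt_mem {c ε : ℝ} (hc : 0 ≤ c) (hε : 0 < ε) {z : ℂ} (hz : z ≠ 0) (hz1 : ‖z‖ < 1) :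
    ∀ᶠ s in 𝓝 (0 : ℝ), pt z s ∈ Om c ε \ {0} := by
  have hne : ∀ s, pt z s ≠ 0 := by
    intro s h
    have := congrArg (fun y : EE => y 0) h
    exact hz this
  have h0 : pt z 0 ∈ Om c ε := by
    rw [mem_Om, pt_zero, pt_one]
    simp only [Real.exp_zero, Complex.ofReal_one, one_mul]
    have hb := bf_nonneg (c := c) (ε := ε) hc z
    have he : Real.exp (-2 * bf c ε z) ≤ 1 := Real.exp_le_one_iff.2 (by linarith)
    have hn : Complex.normSq z < 1 := by
      rw [Complex.normSq_eq_norm_sq]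
      have := norm_nonneg z
      nlinarith
    have hn0 := Complex.normSq_nonneg z
    nlinarith
  have : ∀ᶠ s in 𝓝 (0 : ℝ), pt z s ∈ Om c ε :=
    (continuous_pt z).continuousAt.preimage_mem_nhds ((isOpen_Om c hε).mem_nhds h0)
  filter_upwards [this] with s hs
  exact ⟨hs, hne s⟩

lemma contDiff_pt (z : ℂ) : ContDiff ℝ 2 (pt z) := by
  have e : pt z = fun s : ℝ => (!₂[z, 0] : EE) + Real.exp s • (!₂[0, z] : EE) := by
    funext s
    ext i
    fin_cases i
    · simp [pt]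
    · simp [pt]
  rw [e]
  exact contDiff_const.add (Real.contDiff_exp.smul contDiff_const)

theorem main {c ε : ℝ} (hc : 0 ≤ c) (hε : 0 < ε) {a : ℂ} (haa : ‖a - 1 / 2‖ ≤ 1 / 4)
    (hb : ∀ z : ℂ, 0 < Complex.normSq z → Complex.normSq z < 2 → bf c ε z ≤ E0 z)
    (hab : bf c ε a = E0 a) (f : EE → ℝ) (hf : ContDiffOn ℝ 2 f (Om c ε \ {0}))
    (hfe : ∀ z ∈ Om c ε \ {0}, ((f z : ℝ) : EReal) =
      sSup {t : EReal | ∃ u : EE → EReal, t = u z ∧ Comp (Om c ε) u}) : False := by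
  obtain ⟨z, hz, hz1, A, hA, hup⟩ := upper_points hc hε haa hab
  have hl2 : 0 < Real.log 2 := Real.log_pos (by norm_num)
  set s : ℕ → ℝ := fun m => Real.log 2 / m with hs
  have hcast : Tendsto (fun m : ℕ => (m : ℝ)) atTop atTop := tendsto_natCast_atTop_atTop
  have hs0 : Tendsto s atTop (𝓝 0) := tendsto_const_nhds.div_atTop hcast
  have hs0' : Tendsto (fun m => -s m) atTop (𝓝 0) := by simpa using hs0.neg
  have hspos : ∀ᶠ m : ℕ in atTop, 0 < s m := by
    filter_upwards [eventually_gt_atTop 0] with m hm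
    have : (0 : ℝ) < m := by exact_mod_cast hm
    simp only [hs]; positivity
  have hmem := pt_mem hc hε hz hz1
  have hM1 := hs0.eventually hmem
  have hM2 := hs0'.eventually hmem
  have hge : ∀ (x : ℝ), 0 ≤ x → ∀ t : ℝ, pt z t ∈ Om c ε \ {0} →
      ((2 + x) * Real.log ‖z‖ + t - x ^ 2 / 8) / (2 + x) ≤ f (pt z t) := by
    intro x hx t ht
    have h1 := hfe _ ht
    have h2 : ux x (pt z t) ≤ ((f (pt z t) : ℝ) : EReal) := by
      rw [h1]
      exact le_sSup ⟨ux x, rfl, comp_ux hε hb hx⟩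
    rw [ux_of_ne (by rw [pt_zero]; exact hz) (pt_ne hz t), Fx_pt hz, EReal.coe_le_coe_iff] at h2
    exact h2
  have hopen : IsOpen (Om c ε \ {0}) := (isOpen_Om c hε).sdiff isClosed_singleton
  have hC2 : ContDiffAt ℝ 2 (fun t : ℝ => f (pt z t) - Real.log ‖z‖ - t / 2) 0 := by
    have h1 : ContDiffAt ℝ 2 f (pt z 0) :=
      hf.contDiffAt (hopen.mem_nhds hmem.self_of_nhds)
    have h2 : ContDiffAt ℝ 2 (fun t : ℝ => f (pt z t)) 0 :=
      ContDiffAt.comp (0 : ℝ) h1 (contDiff_pt z).contDiffAt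
    exact (h2.sub contDiffAt_const).sub (contDiffAt_id.div_const 2)
  refine no_C2 (A := A) hC2 ?_ ?_ ?_
  · filter_upwards [hM2, hspos, hs0.eventually (gt_mem_nhds (by norm_num : (0:ℝ) < 1))]
      with m hm hm1 hm2
    have h1 := hge (s m) hm1.le (-s m) hm
    have h2 : Real.log ‖z‖ - s m / 2 + (s m) ^ 2 / 8 ≤
        ((2 + s m) * Real.log ‖z‖ + -s m - s m ^ 2 / 8) / (2 + s m) := by
      rw [le_div_iff₀ (by linarith)]
      nlinarith [pow_pos hm1 2, mul_pos (pow_pos hm1 2) (sub_pos.2 hm2)]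
    change s m ^ 2 / 8 ≤ f (pt z (-s m)) - Real.log ‖z‖ - (-s m) / 2
    linarith
  · filter_upwards [hM1] with m hm
    have h1 := hge 0 le_rfl (s m) hm
    change 0 ≤ f (pt z (s m)) - Real.log ‖z‖ - (s m) / 2
    have h2 : ((2 + 0) * Real.log ‖z‖ + s m - 0 ^ 2 / 8) / (2 + 0) = Real.log ‖z‖ + s m / 2 := by
      ring
    linarith
  · filter_upwards [hM1, hup] with m hm hmu
    have h1 : ((f (pt z (s m)) : ℝ) : EReal) ≤
        ((Real.log ‖z‖ + (1 / 2 + A / (m : ℝ) ^ 2) * (Real.log 2 / m) : ℝ) : EReal) := by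
      rw [hfe _ hm]
      refine sSup_le ?_
      rintro t ⟨u, rfl, hu⟩
      exact hmu u hu
    rw [EReal.coe_le_coe_iff] at h1
    change f (pt z (s m)) - Real.log ‖z‖ - (s m) / 2 ≤ _
    have h2 : (1 / 2 + A / (m : ℝ) ^ 2) * (Real.log 2 / m) =
        s m / 2 + A / (m : ℝ) ^ 2 * (Real.log 2 / m) := by
      simp only [hs]; ring
    linarith

end Pool.Agent.H97.Green
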