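import Pool.Agent.H97.Green.Lower

set_option autoImplicit false

open MeasureTheory Filter Topology

namespace Pool.Agent.H97.Green

lemma circ_int {f : ℂ → ℝ} (hf : Continuous f) {r : ℝ} (hr : 0 ≤ r) : CircleIntegrable f 0 r :=
  hf.continuousOn.circleIntegrable hr

/-- mean of the squared modulus of an entire function -/
lemma avg_sq {H : ℂ → ℂ} (hH : Differentiable ℂ H) {r : ℝ} (hr : 0 ≤ r) :
    Real.circleAverage (fun ζ => ‖H ζ‖ ^ 2) 0 r =
      ‖H 0‖ ^ 2 + Real.circleAverage (fun ζ => ‖H ζ - H 0‖ ^ 2) 0 r := by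
  have hc : Continuous H := hH.continuous
  set G : ℂ → ℂ := fun ζ => star (H 0) * (H ζ - H 0) with hG
  have hGd : Differentiable ℂ G := (hH.sub_const _).const_mul _
  have h1 : Real.circleAverage G 0 r = 0 := by
    have := (hGd.diffContOnCl (s := Metric.ball 0 |r|)).circleAverage
    rw [this, hG]
    simp
  have h2 : Real.circleAverage (fun ζ => (G ζ).re) 0 r = 0 := by
    have h3 := ContinuousLinearMap.circleAverage_comp_comm (c := 0) (R := r) Complex.reCLM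
      (f := G) (hGd.continuous.continuousOn.circleIntegrable hr)
    rw [h1] at h3
    have h3' : Real.circleAverage (fun ζ => (G ζ).re) 0 r = Complex.reCLM 0 := h3
    rw [h3', map_zero]
  have h4 : (fun ζ => ‖H ζ‖ ^ 2) = fun ζ => (‖H 0‖ ^ 2 + ‖H ζ - H 0‖ ^ 2) + 2 * (G ζ).re := by
    funext ζ
    rw [hG]
    simp only [← Complex.normSq_eq_norm_sq, Complex.normSq_apply, Complex.mul_re, Complex.sub_re,
      Complex.sub_im, Complex.star_def, Complex.conj_re, Complex.conj_im]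
    ring
  rw [h4, Real.circleAverage_fun_add, Real.circleAverage_fun_add, Real.circleAverage_const]
  · have h5 : Real.circleAverage (fun ζ => 2 * (G ζ).re) 0 r =
        2 * Real.circleAverage (fun ζ => (G ζ).re) 0 r := Real.circleAverage_fun_smul (a := (2 : ℝ))
    rw [h5, h2]
    ring
  · exact circleIntegrable_const _ _ _
  · exact circ_int (by fun_prop) hr
  · exact circ_int (by fun_prop) hr
  · exact circ_int (by fun_prop) hr

/-- quadratic vanishing -/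
lemma quad_bound {H : ℂ → ℂ} (hH : Differentiable ℂ H) (h0 : deriv H 0 = 0) :
    ∃ C : ℝ, 0 ≤ C ∧ ∀ ζ : ℂ, ‖ζ‖ ≤ 1 → ‖H ζ - H 0‖ ≤ C * ‖ζ‖ ^ 2 := by
  have d1 : Differentiable ℂ (dslope H 0) := by
    rw [← differentiableOn_univ, Complex.differentiableOn_dslope univ_mem, differentiableOn_univ]
    exact hH
  have d2 : Differentiable ℂ (dslope (dslope H 0) 0) := by
    rw [← differentiableOn_univ, Complex.differentiableOn_dslope univ_mem, differentiableOn_univ]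
    exact d1
  obtain ⟨C, hC⟩ := (isCompact_closedBall (0 : ℂ) 1).exists_bound_of_continuousOn
    d2.continuous.continuousOn
  have hC0 : 0 ≤ C := (norm_nonneg _).trans (hC 0 (by simp))
  refine ⟨C, hC0, fun ζ hζ => ?_⟩
  have e1 : ∀ F : ℂ → ℂ, F ζ - F 0 = ζ * dslope F 0 ζ := by
    intro F
    have := sub_smul_dslope F 0 ζ
    simp only [sub_zero, smul_eq_mul] at this
    exact this.symm
  have e2 : dslope H 0 0 = 0 := by rw [dslope_same, h0]
  have e3 : dslope H 0 ζ = ζ * dslope (dslope H 0) 0 ζ := by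
    have := e1 (dslope H 0)
    rw [e2, sub_zero] at this
    exact this
  rw [e1 H, e3, ← mul_assoc, norm_mul, norm_mul]
  have := hC ζ (by simpa using hζ)
  nlinarith [norm_nonneg ζ, mul_nonneg (norm_nonneg ζ) (norm_nonneg ζ)]

/-- The test function. -/
noncomputable def WW (α γ : ℝ) (y : EE) : ℝ := α * Real.log ‖y 0‖ + γ * Real.log ‖y 1‖

lemma continuousAt_WW {α γ : ℝ} {y : EE} (h0 : y 0 ≠ 0) (h1 : y 1 ≠ 0) :
    ContinuousAt (WW α γ) y := by
  unfold WW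
  refine ContinuousAt.add (continuousAt_const.mul ?_) (continuousAt_const.mul ?_)
  · exact ((continuous_coord 0).continuousAt.norm).log (norm_ne_zero_iff.2 h0)
  · exact ((continuous_coord 1).continuousAt.norm).log (norm_ne_zero_iff.2 h1)

theorem no_interior_max {Ω : Set EE} {u : EE → EReal} (hu : Comp Ω u) {O : Set EE}
    (hO : IsOpen O) (hOΩ : O ⊆ Ω) {y0 : EE} (hy0 : y0 ∈ O) {h : EE → ℂ} (hh : Differentiable ℂ h)
    {α γ K δ m0 : ℝ} (hK : 0 ≤ K) (hδ : 0 < δ) (h0 : y0 0 ≠ 0) (h1 : y0 1 ≠ 0)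
    (hle : ∀ y ∈ O, u y ≤ ((WW α γ y + K * ‖h y‖ ^ 2 - δ * ‖y‖ ^ 2 + m0 : ℝ) : EReal))
    (heq : u y0 = ((WW α γ y0 + K * ‖h y0‖ ^ 2 - δ * ‖y0‖ ^ 2 + m0 : ℝ) : EReal)) : False := by
  obtain ⟨_, hneg, _, hsub⟩ := hu
  -- the direction
  obtain ⟨ξ, hξ, hLξ⟩ : ∃ ξ : EE, ξ ≠ 0 ∧ fderiv ℂ h y0 ξ = 0 := by
    set L := fderiv ℂ h y0
    set e0 : EE := !₂[1, 0]
    set e1 : EE := !₂[0, 1]
    by_cases hL : L e0 = 0
    · exact ⟨e0, fun h => by simpa [e0] using congrArg (fun y : EE => y 0) h, hL⟩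
    · refine ⟨L e1 • e0 - L e0 • e1, fun h => ?_, ?_⟩
      · have := congrArg (fun y : EE => y 1) h
        simp only [e0, e1, PiLp.sub_apply, PiLp.smul_apply, smul_eq_mul, PiLp.zero_apply] at this
        simp at this
        exact hL this
      · rw [map_sub, map_smul, map_smul, smul_eq_mul, smul_eq_mul]
        ring
  set H : ℂ → ℂ := fun ζ => h (y0 + ζ • ξ) with hH
  have hline : ∀ ζ : ℂ, HasDerivAt (fun ζ : ℂ => y0 + ζ • ξ) ξ ζ := by
    intro ζ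
    have := ((hasDerivAt_id ζ).smul_const ξ).const_add y0
    simpa using this
  have hHd : Differentiable ℂ H := fun ζ =>
    (hh _).comp ζ (hline ζ).differentiableAt
  have hH0 : deriv H 0 = 0 := by
    have h2 : HasFDerivAt h (fderiv ℂ h (y0 + (0 : ℂ) • ξ)) (y0 + (0 : ℂ) • ξ) := (hh _).hasFDerivAt
    have h3 := (h2.comp_hasDerivAt (0 : ℂ) (hline 0)).deriv
    have h4 : deriv H 0 = (fderiv ℂ h (y0 + (0 : ℂ) • ξ)) ξ := h3
    rw [h4]
    simpa using hLξ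
  obtain ⟨C, hC0, hC⟩ := quad_bound hHd hH0
  set Ψ : EE → ℝ := fun y => WW α γ y + K * ‖h y‖ ^ 2 - δ * ‖y‖ ^ 2 + m0 with hΨ
  have hΨcont : ContinuousAt Ψ y0 := by
    have := continuousAt_WW (α := α) (γ := γ) h0 h1
    have h2 : Continuous h := hh.continuous
    exact (((this.add (continuousAt_const.mul (h2.continuousAt.norm.pow 2))).sub
      (continuousAt_const.mul (continuous_norm.continuousAt.pow 2))).add continuousAt_const)
  have hΨneg : Ψ y0 < 0 := by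
    have := hneg y0 (hOΩ hy0)
    rw [heq] at this
    exact_mod_cast this
  -- choose the radius
  have hnorm : 0 < ‖ξ‖ := norm_pos_iff.2 hξ
  have hev : ∀ᶠ y in 𝓝 y0, y ∈ O ∧ Ψ y < 0 :=
    (hO.eventually_mem hy0).and (hΨcont.eventually_lt_const hΨneg)
  obtain ⟨s, hs, hsball⟩ := Metric.eventually_nhds_iff.1 hev
  have hn0 : 0 < ‖y0 0‖ := norm_pos_iff.2 h0
  have hn1 : 0 < ‖y0 1‖ := norm_pos_iff.2 h1
  obtain ⟨r, hr, hr1, hrs, hr0', hr1', hrK⟩ : ∃ r : ℝ, 0 < r ∧ r ≤ 1 ∧ r * ‖ξ‖ < s ∧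
      r * ‖ξ‖ < ‖y0 0‖ ∧ r * ‖ξ‖ < ‖y0 1‖ ∧ K * (C ^ 2 * r ^ 4) < δ * (r ^ 2 * ‖ξ‖ ^ 2) := by
    set t : ℝ := min (min s (min ‖y0 0‖ ‖y0 1‖) / (2 * ‖ξ‖))
      (min 1 (δ * ‖ξ‖ ^ 2 / (2 * (K * C ^ 2 + 1)))) with ht
    have hKC : 0 ≤ K * C ^ 2 := by positivity
    have ht0 : 0 < t := by
      rw [ht]
      apply lt_min
      · apply div_pos (lt_min hs (lt_min hn0 hn1)); positivity
      · apply lt_min one_pos; positivity
    have ht1 : t ≤ 1 := (min_le_right _ _).trans (min_le_left _ _)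
    have ht2 : t * ‖ξ‖ < min s (min ‖y0 0‖ ‖y0 1‖) := by
      have : t ≤ min s (min ‖y0 0‖ ‖y0 1‖) / (2 * ‖ξ‖) := min_le_left _ _
      rw [le_div_iff₀ (by positivity)] at this
      have h5 : 0 < min s (min ‖y0 0‖ ‖y0 1‖) := lt_min hs (lt_min hn0 hn1)
      nlinarith [mul_pos ht0 hnorm]
    have ht3 : t ≤ δ * ‖ξ‖ ^ 2 / (2 * (K * C ^ 2 + 1)) := (min_le_right _ _).trans (min_le_right _ _)
    refine ⟨t, ht0, ht1, ht2.trans_le (min_le_left _ _),
      ht2.trans_le ((min_le_right _ _).trans (min_le_left _ _)),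
      ht2.trans_le ((min_le_right _ _).trans (min_le_right _ _)), ?_⟩
    rw [le_div_iff₀ (by positivity)] at ht3
    have h6 : K * C ^ 2 * t < δ * ‖ξ‖ ^ 2 := by
      have : 0 < t * (K * C ^ 2 + 1) := by positivity
      nlinarith
    have h7 : K * C ^ 2 * t ^ 2 < δ * ‖ξ‖ ^ 2 := by
      have : K * C ^ 2 * t ^ 2 ≤ K * C ^ 2 * t := by
        apply mul_le_mul_of_nonneg_left _ hKC
        nlinarith
      linarith
    have h8 : K * (C ^ 2 * t ^ 4) = (K * C ^ 2 * t ^ 2) * t ^ 2 := by ring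
    have h9 : δ * (t ^ 2 * ‖ξ‖ ^ 2) = (δ * ‖ξ‖ ^ 2) * t ^ 2 := by ring
    rw [h8, h9]
    exact mul_lt_mul_of_pos_right h7 (by positivity)
  have hdiscO : ∀ ζ : ℂ, ‖ζ‖ ≤ r → y0 + ζ • ξ ∈ O ∧ Ψ (y0 + ζ • ξ) < 0 := by
    intro ζ hζ
    apply hsball
    rw [dist_eq_norm, add_sub_cancel_left, norm_smul]
    calc ‖ζ‖ * ‖ξ‖ ≤ r * ‖ξ‖ := mul_le_mul_of_nonneg_right hζ hnorm.le
      _ < s := hrs
  have hsubm := hsub y0 (hOΩ hy0) ξ r hr (fun ζ hζ => hOΩ (hdiscO ζ hζ).1)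
  -- the comparison function on the disc
  have hco : ∀ (i : Fin 2) (ζ : ℂ), (y0 + ζ • ξ) i = y0 i + ζ * ξ i := fun i ζ => by simp
  set F : ℂ → ℝ := fun ζ => Ψ (y0 + ζ • ξ) with hF
  have hFe : F = fun ζ => (α * Real.log ‖y0 0 + ζ * ξ 0‖ + γ * Real.log ‖y0 1 + ζ * ξ 1‖) +
      (K * ‖H ζ‖ ^ 2 + (-δ * ‖y0 0 + ζ * ξ 0‖ ^ 2 + (-δ * ‖y0 1 + ζ * ξ 1‖ ^ 2 + m0))) := by
    funext ζ
    rw [hF, hΨ]
    simp only [WW, hco, hH, norm_sq_EE]
    ring
  have hi0 : CircleIntegrable (fun ζ : ℂ => α * Real.log ‖y0 0 + ζ * ξ 0‖) 0 r :=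
    (log_affine hr (y0 0) (ξ 0)).1.const_mul _
  have hi1 : CircleIntegrable (fun ζ : ℂ => γ * Real.log ‖y0 1 + ζ * ξ 1‖) 0 r :=
    (log_affine hr (y0 1) (ξ 1)).1.const_mul _
  have hHc : Continuous H := hHd.continuous
  have hi2 : CircleIntegrable (fun ζ : ℂ => K * ‖H ζ‖ ^ 2) 0 r := circ_int (by fun_prop) hr.le
  have hi3 : CircleIntegrable (fun ζ : ℂ => -δ * ‖y0 0 + ζ * ξ 0‖ ^ 2) 0 r :=
    circ_int (by fun_prop) hr.le
  have hi4 : CircleIntegrable (fun ζ : ℂ => -δ * ‖y0 1 + ζ * ξ 1‖ ^ 2) 0 r :=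
    circ_int (by fun_prop) hr.le
  have hi5 : CircleIntegrable (fun ζ : ℂ => -δ * ‖y0 1 + ζ * ξ 1‖ ^ 2 + m0) 0 r :=
    circ_int (by fun_prop) hr.le
  have hi6 : CircleIntegrable (fun ζ : ℂ => -δ * ‖y0 0 + ζ * ξ 0‖ ^ 2 +
      (-δ * ‖y0 1 + ζ * ξ 1‖ ^ 2 + m0)) 0 r := circ_int (by fun_prop) hr.le
  have hi7 : CircleIntegrable (fun ζ : ℂ => K * ‖H ζ‖ ^ 2 + (-δ * ‖y0 0 + ζ * ξ 0‖ ^ 2 +
      (-δ * ‖y0 1 + ζ * ξ 1‖ ^ 2 + m0))) 0 r := circ_int (by fun_prop) hr.le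
  have hi01 : CircleIntegrable (fun ζ : ℂ => α * Real.log ‖y0 0 + ζ * ξ 0‖ +
      γ * Real.log ‖y0 1 + ζ * ξ 1‖) 0 r := hi0.add hi1
  have hFi : CircleIntegrable F 0 r := by rw [hFe]; exact hi01.add hi7
  have hFavg : Real.circleAverage F 0 r < Ψ y0 := by
    have k1 : Real.circleAverage (fun ζ : ℂ => α * Real.log ‖y0 0 + ζ * ξ 0‖) 0 r =
        α * Real.log ‖y0 0‖ := by
      rw [← log_affine_eq hr (y0 0) (ξ 0)
        (lt_of_le_of_lt (mul_le_mul_of_nonneg_left (norm_coord_le ξ 0) hr.le) hr0')]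
      exact Real.circleAverage_fun_smul (a := α)
    have k2 : Real.circleAverage (fun ζ : ℂ => γ * Real.log ‖y0 1 + ζ * ξ 1‖) 0 r =
        γ * Real.log ‖y0 1‖ := by
      rw [← log_affine_eq hr (y0 1) (ξ 1)
        (lt_of_le_of_lt (mul_le_mul_of_nonneg_left (norm_coord_le ξ 1) hr.le) hr1')]
      exact Real.circleAverage_fun_smul (a := γ)
    have k3 : Real.circleAverage (fun ζ : ℂ => K * ‖H ζ‖ ^ 2) 0 r ≤
        K * (‖h y0‖ ^ 2 + C ^ 2 * r ^ 4) := by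
      have e : Real.circleAverage (fun ζ : ℂ => K * ‖H ζ‖ ^ 2) 0 r =
          K * Real.circleAverage (fun ζ : ℂ => ‖H ζ‖ ^ 2) 0 r :=
        Real.circleAverage_fun_smul (a := K)
      rw [e, avg_sq hHd hr.le]
      have e2 : H 0 = h y0 := by rw [hH]; simp
      rw [e2]
      apply mul_le_mul_of_nonneg_left _ hK
      have e3 : Real.circleAverage (fun ζ => ‖H ζ - h y0‖ ^ 2) 0 r ≤ C ^ 2 * r ^ 4 := by
        rw [← Real.circleAverage_const (C ^ 2 * r ^ 4) 0 r]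
        refine Real.circleAverage_mono (circ_int (by fun_prop) hr.le)
          (circleIntegrable_const _ _ _) (fun ζ hζ => ?_)
        rw [abs_of_pos hr, mem_sphere_zero_iff_norm] at hζ
        have h5 := hC ζ (by rw [hζ]; exact hr1)
        rw [hζ, e2] at h5
        calc ‖H ζ - h y0‖ ^ 2 ≤ (C * r ^ 2) ^ 2 := pow_le_pow_left₀ (norm_nonneg _) h5 2
          _ = C ^ 2 * r ^ 4 := by ring
      linarith
    have k4 : ∀ i : Fin 2, Real.circleAverage (fun ζ : ℂ => -δ * ‖y0 i + ζ * ξ i‖ ^ 2) 0 r =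
        -δ * (‖y0 i‖ ^ 2 + r ^ 2 * ‖ξ i‖ ^ 2) := by
      intro i
      have e : Real.circleAverage (fun ζ : ℂ => -δ * ‖y0 i + ζ * ξ i‖ ^ 2) 0 r =
          -δ * Real.circleAverage (fun ζ : ℂ => ‖y0 i + ζ * ξ i‖ ^ 2) 0 r :=
        Real.circleAverage_fun_smul (a := -δ)
      rw [e, avg_sq (H := fun ζ => y0 i + ζ * ξ i) (by fun_prop) hr.le]
      congr 1
      have e2 : Real.circleAverage (fun ζ : ℂ => ‖y0 i + ζ * ξ i - (y0 i + 0 * ξ i)‖ ^ 2) 0 r =
          r ^ 2 * ‖ξ i‖ ^ 2 := by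
        rw [← Real.circleAverage_const (r ^ 2 * ‖ξ i‖ ^ 2) 0 r]
        refine Real.circleAverage_congr_sphere (fun ζ hζ => ?_)
        rw [abs_of_pos hr, mem_sphere_zero_iff_norm] at hζ
        simp only [zero_mul, add_zero, add_sub_cancel_left]
        rw [norm_mul, hζ]
        ring
      rw [e2]
      simp
    have k5 : Real.circleAverage F 0 r =
        (α * Real.log ‖y0 0‖ + γ * Real.log ‖y0 1‖) +
        (Real.circleAverage (fun ζ : ℂ => K * ‖H ζ‖ ^ 2) 0 r +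
          (-δ * (‖y0 0‖ ^ 2 + r ^ 2 * ‖ξ 0‖ ^ 2) +
            (-δ * (‖y0 1‖ ^ 2 + r ^ 2 * ‖ξ 1‖ ^ 2) + m0))) := by
      rw [hFe, Real.circleAverage_fun_add hi01 hi7, Real.circleAverage_fun_add hi0 hi1,
        Real.circleAverage_fun_add hi2 hi6, Real.circleAverage_fun_add hi3 hi5,
        Real.circleAverage_fun_add hi4 (circleIntegrable_const _ _ _), k1, k2, k4, k4,
        Real.circleAverage_const]
    rw [k5, hΨ]
    simp only [WW]
    rw [norm_sq_EE y0]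
    rw [norm_sq_EE ξ] at hrK
    nlinarith [k3]
  -- contradiction with the sub-mean inequality
  have hL : ∫⁻ θ in Set.Icc (0 : ℝ) (2 * Real.pi), ENNReal.ofReal (-F (circleMap 0 r θ)) ≤
      ∫⁻ θ in Set.Icc (0 : ℝ) (2 * Real.pi),
        EReal.toENNReal (-(u (y0 + ((r : ℂ) * Complex.exp ((θ : ℂ) * Complex.I)) • ξ))) := by
    refine lintegral_mono (fun θ => ?_)
    simp only [circle_expr]
    have h5 := hle _ (hdiscO (circleMap 0 r θ) (by rw [norm_circleMap_zero, abs_of_pos hr])).1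
    rw [← EReal.real_coe_toENNReal, EReal.coe_neg]
    exact EReal.toENNReal_le_toENNReal (EReal.neg_le_neg_iff.2 h5)
  rw [lint_eq hFi (Eventually.of_forall (fun θ =>
    (hdiscO (circleMap 0 r θ) (by rw [norm_circleMap_zero, abs_of_pos hr])).2.le))] at hL
  have h6 := hL.trans hsubm
  rw [heq, ← EReal.coe_neg, EReal.real_coe_toENNReal, ← ENNReal.ofReal_mul (by positivity)] at h6
  have h7 : 2 * Real.pi * (-Real.circleAverage F 0 r) ≤ 2 * Real.pi * (-Ψ y0) := by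
    rw [ENNReal.ofReal_le_ofReal_iff] at h6
    · exact h6
    · have : 0 ≤ -Ψ y0 := by linarith
      positivity
  have h8 : -Real.circleAverage F 0 r ≤ -Ψ y0 := le_of_mul_le_mul_left h7 (by positivity)
  linarith

end Pool.Agent.H97.Green
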