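import Pool.Agent.H97.Green.Circle

set_option autoImplicit false

open MeasureTheory Filter Topology

namespace Pool.Agent.H97.Green

/-- The class of competitors for the pluricomplex Green function with pole `0`. -/
def Comp (Ω : Set EE) (u : EE → EReal) : Prop :=
  UpperSemicontinuousOn u Ω ∧ (∀ y ∈ Ω, u y < 0) ∧
    (∃ C : ℝ, ∃ δ : ℝ, 0 < δ ∧ ∀ y ∈ Ω, y ≠ 0 → ‖y - 0‖ < δ →
      u y ≤ ((Real.log ‖y - 0‖ + C : ℝ) : EReal)) ∧
    ∀ a ∈ Ω, ∀ b : EE, ∀ r : ℝ, 0 < r → (∀ ζ : ℂ, ‖ζ‖ ≤ r → a + ζ • b ∈ Ω) →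
      ∫⁻ θ in Set.Icc (0 : ℝ) (2 * Real.pi),
          EReal.toENNReal (-(u (a + ((r : ℂ) * Complex.exp ((θ : ℂ) * Complex.I)) • b)))
        ≤ ENNReal.ofReal (2 * Real.pi) * EReal.toENNReal (-(u a))

/-- real form of the test function -/
noncomputable def Fx (x : ℝ) (y : EE) : ℝ :=
  (Real.log ‖y 1‖ + (1 + x) * Real.log ‖y 0‖ - x ^ 2 / 8) / (2 + x)

/-- exponential form -/
noncomputable def Ex (x : ℝ) (y : EE) : ℝ :=
  ‖y 1‖ ^ (1 / (2 + x)) * ‖y 0‖ ^ ((1 + x) / (2 + x)) * Real.exp (-(x ^ 2 / 8) / (2 + x))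

/-- The competitor. -/
noncomputable def ux (x : ℝ) (y : EE) : EReal := ENNReal.log (ENNReal.ofReal (Ex x y))

lemma Ex_nonneg (x : ℝ) (y : EE) : 0 ≤ Ex x y := by unfold Ex; positivity

lemma Ex_pos {x : ℝ} {y : EE} (h0 : y 0 ≠ 0) (h1 : y 1 ≠ 0) : 0 < Ex x y := by
  unfold Ex
  have := norm_pos_iff.2 h0
  have := norm_pos_iff.2 h1
  positivity

lemma log_Ex {x : ℝ} {y : EE} (h0 : y 0 ≠ 0) (h1 : y 1 ≠ 0) :
    Real.log (Ex x y) = Fx x y := by
  have h2 := norm_pos_iff.2 h0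
  have h3 := norm_pos_iff.2 h1
  unfold Ex Fx
  rw [Real.log_mul (by positivity) (Real.exp_pos _).ne', Real.log_mul (by positivity) (by positivity),
    Real.log_rpow h3, Real.log_rpow h2, Real.log_exp]
  ring

lemma Ex_eq_zero {x : ℝ} (hx : 0 ≤ x) {y : EE} (h : y 0 = 0 ∨ y 1 = 0) : Ex x y = 0 := by
  unfold Ex
  rcases h with h | h
  · rw [h, norm_zero, Real.zero_rpow (by positivity)]; simp
  · rw [h, norm_zero, Real.zero_rpow (by positivity)]; simp

lemma ux_of_ne {x : ℝ} {y : EE} (h0 : y 0 ≠ 0) (h1 : y 1 ≠ 0) : ux x y = ((Fx x y : ℝ) : EReal) := by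
  unfold ux
  rw [ENNReal.log_ofReal_of_pos (Ex_pos h0 h1), log_Ex h0 h1]

lemma ux_of_eq {x : ℝ} (hx : 0 ≤ x) {y : EE} (h : y 0 = 0 ∨ y 1 = 0) : ux x y = ⊥ := by
  unfold ux
  rw [Ex_eq_zero hx h]
  simp

lemma continuous_ux {x : ℝ} (hx : 0 ≤ x) : Continuous (ux x) := by
  unfold ux
  refine ENNReal.logHomeomorph.continuous.comp (ENNReal.continuous_ofReal.comp ?_)
  unfold Ex
  refine (Continuous.mul ?_ ?_).mul continuous_const
  · exact (continuous_coord 1).norm.rpow_const (fun _ => Or.inr (by positivity))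
  · exact (continuous_coord 0).norm.rpow_const (fun _ => Or.inr (by positivity))

/-- On the domain, `|z w| < 1` and refined bounds. -/
lemma Fx_neg {c ε : ℝ} (hε : 0 < ε)
    (hb : ∀ z : ℂ, 0 < Complex.normSq z → Complex.normSq z < 2 → bf c ε z ≤ E0 z)
    {x : ℝ} (hx : 0 ≤ x) {y : EE} (hy : y ∈ Om c ε) (h0 : y 0 ≠ 0) (h1 : y 1 ≠ 0) :
    Fx x y < 0 := by
  rw [mem_Om] at hy
  have hp0 : 0 < Complex.normSq (y 0) := Complex.normSq_pos.2 h0
  have hp1 : 0 < Complex.normSq (y 1) := Complex.normSq_pos.2 h1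
  have he : 0 < Real.exp (-2 * bf c ε (y 0)) := Real.exp_pos _
  have hlt2 : Complex.normSq (y 0) < 2 := by nlinarith [mul_pos hp1 he]
  have hbE := hb (y 0) hp0 hlt2
  have hn0 : Real.log (Complex.normSq (y 0)) = 2 * Real.log ‖y 0‖ := by
    rw [Complex.normSq_eq_norm_sq, Real.log_pow]; norm_num
  have hn1 : Real.log (Complex.normSq (y 1)) = 2 * Real.log ‖y 1‖ := by
    rw [Complex.normSq_eq_norm_sq, Real.log_pow]; norm_num
  have h2 : Real.log (Complex.normSq (y 1)) + (-2 * bf c ε (y 0)) <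
      Real.log (2 - Complex.normSq (y 0)) := by
    have h3 : Complex.normSq (y 1) * Real.exp (-2 * bf c ε (y 0)) < 2 - Complex.normSq (y 0) := by
      linarith
    have h4 := Real.log_lt_log (by positivity) h3
    rwa [Real.log_mul hp1.ne' he.ne', Real.log_exp] at h4
  have hE : E0 (y 0) = -(1 / 2) * (Real.log (Complex.normSq (y 0)) +
      Real.log (2 - Complex.normSq (y 0))) := by
    unfold E0
    rw [Real.log_mul hp0.ne' (by linarith)]
  unfold Fx
  apply div_neg_of_neg_of_pos _ (by linarith)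
  by_cases hle : Complex.normSq (y 0) ≤ 1
  · have h5 : Real.log ‖y 0‖ ≤ 0 := by
      have := Real.log_nonpos hp0.le hle
      linarith
    have h6 : Real.log ‖y 1‖ + Real.log ‖y 0‖ < 0 := by
      rw [hE] at hbE; linarith
    have h7 : x * Real.log ‖y 0‖ ≤ 0 := mul_nonpos_of_nonneg_of_nonpos hx h5
    nlinarith [sq_nonneg x]
  · have hgt : 1 < Complex.normSq (y 0) := not_le.1 hle
    have hb0 : bf c ε (y 0) = 0 := by
      apply bf_eq_zero hε
      have h5 : 1 < ‖y 0‖ := by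
        rw [Complex.normSq_eq_norm_sq] at hgt
        nlinarith [norm_nonneg (y 0)]
      have h6 : ‖(1 / 2 : ℂ)‖ = 1 / 2 := by simp
      have h7 := norm_sub_norm_le (y 0) (1 / 2)
      rw [h6] at h7
      linarith
    rw [hb0] at h2
    set p := Complex.normSq (y 0) with hp
    have h5 : Real.log p + Real.log (2 - p) ≤ -(p - 1) ^ 2 := by
      rw [← Real.log_mul (by linarith) (by linarith)]
      have := Real.log_le_sub_one_of_pos (show 0 < p * (2 - p) from mul_pos (by linarith) (by linarith))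
      nlinarith
    have h6 : Real.log p ≤ p - 1 := Real.log_le_sub_one_of_pos (by linarith)
    have h7 : x * Real.log p ≤ x * (p - 1) := mul_le_mul_of_nonneg_left h6 hx
    nlinarith [sq_nonneg (p - 1 - x / 2)]

/-- The functions `ux` are competitors. -/
theorem comp_ux {c ε : ℝ} (hε : 0 < ε)
    (hb : ∀ z : ℂ, 0 < Complex.normSq z → Complex.normSq z < 2 → bf c ε z ≤ E0 z)
    {x : ℝ} (hx : 0 ≤ x) : Comp (Om c ε) (ux x) := by
  have hneg : ∀ y ∈ Om c ε, ux x y < 0 := by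
    intro y hy
    by_cases h : y 0 = 0 ∨ y 1 = 0
    · rw [ux_of_eq hx h]; exact EReal.bot_lt_zero
    · push Not at h
      rw [ux_of_ne h.1 h.2]
      exact_mod_cast Fx_neg hε hb hx hy h.1 h.2
  refine ⟨(continuous_ux hx).upperSemicontinuous.upperSemicontinuousOn _, hneg,
    ⟨0, 1, one_pos, fun y hy hy0 _ => ?_⟩, fun a ha b r hr hdisc => ?_⟩
  · have hn : 0 < ‖y‖ := norm_pos_iff.2 hy0
    rw [sub_zero, add_zero, ← ENNReal.log_ofReal_of_pos hn]
    unfold ux
    apply ENNReal.log_monotone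
    apply ENNReal.ofReal_le_ofReal
    unfold Ex
    have h1 : ‖y 1‖ ^ (1 / (2 + x)) ≤ ‖y‖ ^ (1 / (2 + x)) :=
      Real.rpow_le_rpow (norm_nonneg _) (norm_coord_le y 1) (by positivity)
    have h2 : ‖y 0‖ ^ ((1 + x) / (2 + x)) ≤ ‖y‖ ^ ((1 + x) / (2 + x)) :=
      Real.rpow_le_rpow (norm_nonneg _) (norm_coord_le y 0) (by positivity)
    have h3 : Real.exp (-(x ^ 2 / 8) / (2 + x)) ≤ 1 := by
      rw [Real.exp_le_one_iff]
      apply div_nonpos_of_nonpos_of_nonneg
      · nlinarith [sq_nonneg x]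
      · linarith
    have h4 : ‖y‖ ^ (1 / (2 + x)) * ‖y‖ ^ ((1 + x) / (2 + x)) = ‖y‖ := by
      rw [← Real.rpow_add hn]
      have : 1 / (2 + x) + (1 + x) / (2 + x) = 1 := by
        have : (2 + x) ≠ 0 := by positivity
        field_simp; ring
      rw [this, Real.rpow_one]
    calc ‖y 1‖ ^ (1 / (2 + x)) * ‖y 0‖ ^ ((1 + x) / (2 + x)) *
          Real.exp (-(x ^ 2 / 8) / (2 + x))
        ≤ ‖y‖ ^ (1 / (2 + x)) * ‖y‖ ^ ((1 + x) / (2 + x)) * 1 := by
          gcongr
      _ = ‖y‖ := by rw [mul_one, h4]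
  · by_cases h : a 0 = 0 ∨ a 1 = 0
    · rw [ux_of_eq hx h]
      simp only [EReal.neg_bot, EReal.toENNReal_top]
      rw [ENNReal.mul_top]
      · exact le_top
      · simp [Real.pi_pos]
    · push Not at h
      obtain ⟨ha0, ha1⟩ := h
      have hco : ∀ (i : Fin 2) (ζ : ℂ), (a + ζ • b) i = a i + ζ * b i := fun i ζ => by simp
      have hae : ∀ᵐ θ : ℝ, (a + circleMap 0 r θ • b) 0 ≠ 0 ∧ (a + circleMap 0 r θ • b) 1 ≠ 0 := by
        filter_upwards [ae_circle_ne hr (b := b 0) ha0, ae_circle_ne hr (b := b 1) ha1] with θ h0 h1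
        rw [hco, hco]
        exact ⟨h0, h1⟩
      set F : ℂ → ℝ := fun ζ => Fx x (a + ζ • b) with hF
      have hFe : F = fun ζ => (1 / (2 + x)) * Real.log ‖a 1 + ζ * b 1‖ +
          (((1 + x) / (2 + x)) * Real.log ‖a 0 + ζ * b 0‖ + (-(x ^ 2 / 8) / (2 + x))) := by
        funext ζ
        rw [hF]
        simp only [Fx, hco]
        ring
      obtain ⟨hi1, hm1⟩ := log_affine hr (a 1) (b 1)
      obtain ⟨hi0, hm0⟩ := log_affine hr (a 0) (b 0)
      have hi1' : CircleIntegrable (fun ζ : ℂ => (1 / (2 + x)) * Real.log ‖a 1 + ζ * b 1‖) 0 r :=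
        hi1.const_mul _
      have hi0' : CircleIntegrable (fun ζ : ℂ => ((1 + x) / (2 + x)) * Real.log ‖a 0 + ζ * b 0‖) 0 r :=
        hi0.const_mul _
      have hi0'' : CircleIntegrable (fun ζ : ℂ => ((1 + x) / (2 + x)) * Real.log ‖a 0 + ζ * b 0‖ +
          (-(x ^ 2 / 8) / (2 + x))) 0 r := hi0'.add (circleIntegrable_const _ _ _)
      have hFi : CircleIntegrable F 0 r := by
        rw [hFe]; exact hi1'.add hi0''
      have hFm : F 0 ≤ Real.circleAverage F 0 r := by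
        rw [hFe, Real.circleAverage_fun_add hi1' hi0'', Real.circleAverage_fun_add hi0'
          (circleIntegrable_const _ _ _), Real.circleAverage_const]
        have e1 : Real.circleAverage (fun ζ : ℂ => (1 / (2 + x)) * Real.log ‖a 1 + ζ * b 1‖) 0 r =
            (1 / (2 + x)) * Real.circleAverage (fun ζ : ℂ => Real.log ‖a 1 + ζ * b 1‖) 0 r :=
          Real.circleAverage_fun_smul (a := (1 / (2 + x) : ℝ))
        have e0 : Real.circleAverage (fun ζ : ℂ => ((1 + x) / (2 + x)) * Real.log ‖a 0 + ζ * b 0‖) 0 r =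
            ((1 + x) / (2 + x)) * Real.circleAverage (fun ζ : ℂ => Real.log ‖a 0 + ζ * b 0‖) 0 r :=
          Real.circleAverage_fun_smul (a := ((1 + x) / (2 + x) : ℝ))
        rw [e1, e0]
        simp only [zero_mul, add_zero]
        have h1 := mul_le_mul_of_nonneg_left (hm1 ha1) (show 0 ≤ 1 / (2 + x) by positivity)
        have h0 := mul_le_mul_of_nonneg_left (hm0 ha0) (show 0 ≤ (1 + x) / (2 + x) by positivity)
        linarith
      have hcirc : ∀ θ : ℝ, a + circleMap 0 r θ • b ∈ Om c ε := fun θ =>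
        hdisc _ (by rw [norm_circleMap_zero, abs_of_pos hr])
      have hFn : ∀ᵐ θ : ℝ, F (circleMap 0 r θ) ≤ 0 := by
        filter_upwards [hae] with θ hθ
        exact (Fx_neg hε hb hx (hcirc θ) hθ.1 hθ.2).le
      have hL : ∫⁻ θ in Set.Icc (0 : ℝ) (2 * Real.pi),
          EReal.toENNReal (-(ux x (a + ((r : ℂ) * Complex.exp ((θ : ℂ) * Complex.I)) • b))) =
          ∫⁻ θ in Set.Icc (0 : ℝ) (2 * Real.pi), ENNReal.ofReal (-F (circleMap 0 r θ)) := by
        refine lintegral_congr_ae (ae_restrict_of_ae ?_)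
        filter_upwards [hae] with θ hθ
        simp only [circle_expr]
        rw [ux_of_ne hθ.1 hθ.2, ← EReal.coe_neg, EReal.real_coe_toENNReal]
      rw [hL, lint_eq hFi hFn, ux_of_ne ha0 ha1, ← EReal.coe_neg, EReal.real_coe_toENNReal,
        ← ENNReal.ofReal_mul (by positivity)]
      apply ENNReal.ofReal_le_ofReal
      apply mul_le_mul_of_nonneg_left _ (by positivity)
      have : F 0 = Fx x a := by rw [hF]; simp
      linarith

end Pool.Agent.H97.Green
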