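import Pool.Agent.H97.Green.Curve

set_option autoImplicit false

open Filter Topology

namespace Pool.Agent.H97.Green

lemma Xf_lower {c ε : ℝ} (hc : 0 ≤ c) {z : ℂ} (h0 : z ≠ 0) (h1 : ‖z‖ < 1) :
    (1 - ‖z‖ ^ 2) / 2 ≤ Xf c ε z := by
  unfold Xf
  rw [Complex.normSq_eq_norm_sq]
  have hz0 : 0 < ‖z‖ := norm_pos_iff.2 h0
  have hp : 0 < ‖z‖ ^ 2 := by positivity
  have hp1 : ‖z‖ ^ 2 < 1 := by nlinarith
  have h2 : 0 ≤ Real.log (2 - ‖z‖ ^ 2) := Real.log_nonneg (by linarith)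
  have h3 : Real.log (‖z‖ ^ 2) ≤ ‖z‖ ^ 2 - 1 := Real.log_le_sub_one_of_pos hp
  have h4 := bf_nonneg (c := c) (ε := ε) hc z
  linarith

/-- critical value -/
noncomputable def XS (a : ℂ) : ℝ := -Real.log (Complex.normSq a)

lemma Xf_a {c ε : ℝ} {a : ℂ} (ha1 : 1 / 4 ≤ ‖a‖) (ha : ‖a‖ ≤ 3 / 4) (hab : bf c ε a = E0 a) :
    Xf c ε a = XS a := by
  unfold Xf XS
  rw [hab]
  unfold E0
  have hp : 0 < Complex.normSq a := by
    rw [Complex.normSq_eq_norm_sq]; positivity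
  have hp2 : Complex.normSq a ≤ 1 := by
    rw [Complex.normSq_eq_norm_sq]; nlinarith
  rw [Real.log_mul hp.ne' (by linarith)]
  ring

lemma XS_pos {a : ℂ} (ha1 : 1 / 4 ≤ ‖a‖) (ha : ‖a‖ ≤ 3 / 4) : 0 < XS a := by
  unfold XS
  have hp : 0 < Complex.normSq a := by
    rw [Complex.normSq_eq_norm_sq]; positivity
  have hp2 : Complex.normSq a < 1 := by
    rw [Complex.normSq_eq_norm_sq]; nlinarith
  have := Real.log_neg hp hp2
  linarith

lemma Xf_lip {c ε : ℝ} (hε : 0 < ε) {a : ℂ} (ha1 : 1 / 4 ≤ ‖a‖) (ha : ‖a‖ ≤ 3 / 4) :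
    ∃ C : ℝ, 0 < C ∧ ∃ δ : ℝ, 0 < δ ∧ ∀ z : ℂ, ‖z - a‖ < δ → Xf c ε a - C * ‖z - a‖ ≤ Xf c ε z := by
  have hp : 0 < Complex.normSq a := by
    rw [Complex.normSq_eq_norm_sq]; positivity
  have hp2 : Complex.normSq a < 1 := by
    rw [Complex.normSq_eq_norm_sq]; nlinarith
  have hN : DifferentiableAt ℝ (Complex.normSq : ℂ → ℝ) a :=
    (contDiff_normSq.differentiable (by simp)).differentiableAt
  have hB : DifferentiableAt ℝ (bf c ε) a :=
    ((contDiff_bf c hε).differentiable (by simp)).differentiableAt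
  have hX : DifferentiableAt ℝ (Xf c ε) a := by
    have e : Xf c ε = fun z => (1 / 2) * Real.log (2 - Complex.normSq z) + bf c ε z
        - (1 / 2) * Real.log (Complex.normSq z) := rfl
    rw [e]
    have h1 : DifferentiableAt ℝ (fun z => Real.log (2 - Complex.normSq z)) a :=
      (hN.const_sub 2).log (by linarith)
    have h2 : DifferentiableAt ℝ (fun z => Real.log (Complex.normSq z)) a := hN.log hp.ne'
    exact ((h1.const_mul _).add hB).sub (h2.const_mul _)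
  obtain ⟨C, hC⟩ := hX.isBigO_sub.bound
  rw [Metric.eventually_nhds_iff] at hC
  obtain ⟨δ, hδ, hCδ⟩ := hC
  refine ⟨max C 1, by positivity, δ, hδ, fun z hz => ?_⟩
  have h1 := hCδ (y := z) (by rw [dist_eq_norm]; exact hz)
  rw [Real.norm_eq_abs] at h1
  have h2 : C * ‖z - a‖ ≤ max C 1 * ‖z - a‖ :=
    mul_le_mul_of_nonneg_right (le_max_left _ _) (norm_nonneg _)
  have h3 := neg_abs_le (Xf c ε z - Xf c ε a)
  linarith

lemma mem_Om_of_lt {c ε : ℝ} {y : EE} (h0 : y 0 ≠ 0) (h1 : ‖y 0‖ < 1) {t : ℝ} (ht : 0 < t)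
    (hyt : ‖y 0‖ = t * ‖y 1‖) (hX : -Real.log t < Xf c ε (y 0)) : y ∈ Om c ε := by
  rw [mem_Om]
  have hz0 : 0 < ‖y 0‖ := norm_pos_iff.2 h0
  have hw : ‖y 1‖ = ‖y 0‖ / t := by rw [hyt]; field_simp
  have hw0 : 0 < ‖y 1‖ := by rw [hw]; positivity
  unfold Xf at hX
  rw [Complex.normSq_eq_norm_sq] at hX
  rw [Complex.normSq_eq_norm_sq, Complex.normSq_eq_norm_sq]
  have hp : 0 < ‖y 0‖ ^ 2 := by positivity
  have hp1 : ‖y 0‖ ^ 2 < 1 := by nlinarith
  have hw2 : ‖y 1‖ ^ 2 = ‖y 0‖ ^ 2 / t ^ 2 := by rw [hw, div_pow]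
  have key : Real.log (‖y 1‖ ^ 2 * Real.exp (-2 * bf c ε (y 0))) < Real.log (2 - ‖y 0‖ ^ 2) := by
    rw [Real.log_mul (by positivity) (Real.exp_pos _).ne', Real.log_exp, hw2,
      Real.log_div hp.ne' (by positivity)]
    have : Real.log (t ^ 2) = 2 * Real.log t := by rw [Real.log_pow]; norm_num
    rw [this]
    linarith
  have := (Real.log_lt_log_iff (by positivity) (by linarith)).1 key
  linarith

lemma log_inv_le {Y : ℝ} (hY : 0 < Y) (hY1 : Y < 1) : -Real.log Y ≤ (1 - Y ^ 2) / Y := by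
  have h1 : 1 - Y⁻¹ ≤ Real.log Y := Real.one_sub_inv_le_log_of_pos hY
  have h2 : Y⁻¹ - 1 ≤ (1 - Y ^ 2) / Y := by
    rw [le_div_iff₀ hY]
    have : (Y⁻¹ - 1) * Y = 1 - Y := by field_simp
    rw [this]; nlinarith
  linarith

theorem H1_eventually {c ε : ℝ} (hc : 0 ≤ c) (hε : 0 < ε) {a : ℂ} (ha1 : 1 / 4 ≤ ‖a‖)
    (ha : ‖a‖ ≤ 3 / 4) (hab : bf c ε a = E0 a) :
    ∀ᶠ m : ℕ in atTop, ∀ y : EE, y 0 ≠ 0 → hm m a y = 0 →
      Real.exp (-(XS a - 1 / (m : ℝ) ^ 2)) * ‖y 1‖ ≤ ‖y 0‖ → ‖y 0‖ < ‖y 1‖ →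
      y ∈ Om c ε ∧ ‖y 0‖ < 1 := by
  obtain ⟨C, hC, δ, hδ, hL⟩ := Xf_lip (c := c) hε ha1 ha
  have hXS := XS_pos ha1 ha
  rw [Xf_a ha1 ha hab] at hL
  set y₀ : ℝ := min (δ / 4) (XS a / (8 * C)) with hy₀
  have hy₀p : 0 < y₀ := lt_min (by positivity) (by positivity)
  have hcast : Tendsto (fun m : ℕ => (m : ℝ)) atTop atTop := tendsto_natCast_atTop_atTop
  have E1 : ∀ᶠ m : ℕ in atTop, 14 / y₀ < (m : ℝ) := hcast.eventually_gt_atTop _
  have E2 : ∀ᶠ m : ℕ in atTop, 2 * C ≤ (m : ℝ) := hcast.eventually_ge_atTop _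
  have E3 : ∀ᶠ m : ℕ in atTop, 1 < (m : ℝ) := hcast.eventually_gt_atTop _
  have E4 : ∀ᶠ m : ℕ in atTop, ‖Real.log (m : ℝ)‖ ≤ XS a / 8 * ‖(m : ℝ)‖ :=
    hcast.eventually (Real.isLittleO_log_id_atTop.bound (by positivity : (0:ℝ) < XS a / 8))
  filter_upwards [E1, E2, E3, E4] with m h14 h2C hm1 hlog
  intro y h0 hy hr hlt
  have hm0 : m ≠ 0 := by
    rintro rfl
    norm_num at hm1
  have hmp : 0 < (m : ℝ) := by linarith
  have hz0 : 0 < ‖y 0‖ := norm_pos_iff.2 h0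
  have hw0 : 0 < ‖y 1‖ := hz0.trans hlt
  set t := ‖y 0‖ / ‖y 1‖ with ht
  have ht0 : 0 < t := by positivity
  have ht1 : t < 1 := by rw [ht, div_lt_one hw0]; exact hlt
  have hyt : ‖y 0‖ = t * ‖y 1‖ := by rw [ht]; field_simp
  obtain ⟨f1, f2, f3, f4⟩ := curve_facts hm0 ha h0 hy ht0 ht1 hyt
  refine ⟨mem_Om_of_lt h0 f1 ht0 hyt ?_, f1⟩
  set Y := t ^ m with hY
  have hY0 : 0 < Y := pow_pos ht0 m
  have hY1 : Y < 1 := pow_lt_one₀ ht0.le ht1 hm0
  have hlogY : Real.log Y = m * Real.log t := by rw [hY, Real.log_pow]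
  have hlt' : Real.log t = Real.log Y / m := by rw [hlogY]; field_simp
  rw [Real.norm_of_nonneg (Real.log_nonneg hm1.le), Real.norm_of_nonneg hmp.le] at hlog
  rcases le_or_gt y₀ Y with hcase | hcase
  · -- far from the puncture
    have h1 := Xf_lower (c := c) (ε := ε) hc h0 f1
    have h2 := log_inv_le hY0 hY1
    rw [hlt']
    have hYs : 0 < 1 - Y ^ 2 := by nlinarith
    have h3 : (1 - Y ^ 2) / Y ≤ (1 - Y ^ 2) / y₀ := by gcongr
    have h4 : -(Real.log Y / m) = (-Real.log Y) / m := by ring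
    rw [h4]
    have h5 : (-Real.log Y) / m ≤ ((1 - Y ^ 2) / y₀) / m := by
      gcongr; linarith
    have h6 : ((1 - Y ^ 2) / y₀) / m < (1 - Y ^ 2) / 14 := by
      rw [div_div, div_lt_div_iff₀ (by positivity) (by norm_num)]
      have : 14 < m * y₀ := by rwa [div_lt_iff₀ hy₀p] at h14
      nlinarith
    linarith
  · have hYδ : ‖y 0 - a‖ < δ := by
      have : y₀ ≤ δ / 4 := min_le_left _ _
      linarith
    have h1 := hL (y 0) hYδ
    rcases le_or_gt (1 / (m : ℝ) ^ 3) Y with hcase2 | hcase2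
    · have h2 : -Real.log Y ≤ 3 * Real.log m := by
        have : Real.log (1 / (m : ℝ) ^ 3) ≤ Real.log Y := Real.log_le_log (by positivity) hcase2
        rw [Real.log_div one_ne_zero (by positivity), Real.log_one, Real.log_pow] at this
        push_cast at this
        linarith
      have h3 : -Real.log t ≤ 3 * (XS a / 8) := by
        rw [hlt']
        have : -(Real.log Y / m) = (-Real.log Y) / m := by ring
        rw [this, div_le_iff₀ hmp]
        linarith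
      have h4 : y₀ ≤ XS a / (8 * C) := min_le_right _ _
      have h5 : C * ‖y 0 - a‖ ≤ XS a / 4 := by
        have : C * ‖y 0 - a‖ ≤ C * (2 * (XS a / (8 * C))) := by
          apply mul_le_mul_of_nonneg_left _ hC.le
          linarith
        have e : C * (2 * (XS a / (8 * C))) = XS a / 4 := by field_simp; ring
        linarith
      linarith
    · have h2 : -(XS a - 1 / (m : ℝ) ^ 2) ≤ Real.log t := by
        rw [Real.le_log_iff_exp_le ht0, ht, le_div_iff₀ hw0]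
        exact hr
      have h3 : C * ‖y 0 - a‖ < 1 / (m : ℝ) ^ 2 := by
        have h4 : C * ‖y 0 - a‖ ≤ C * (2 * Y) := mul_le_mul_of_nonneg_left f2 hC.le
        have h5 : C * (2 * Y) < C * (2 * (1 / (m : ℝ) ^ 3)) := by
          apply mul_lt_mul_of_pos_left _ hC
          linarith
        have h6 : C * (2 * (1 / (m : ℝ) ^ 3)) ≤ 1 / (m : ℝ) ^ 2 := by
          have : C * (2 * (1 / (m : ℝ) ^ 3)) = (2 * C) / (m : ℝ) ^ 3 := by ring
          rw [this, div_le_div_iff₀ (by positivity) (by positivity)]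
          have : 0 ≤ (m : ℝ) ^ 2 * ((m : ℝ) - 2 * C) := by
            apply mul_nonneg (by positivity); linarith
          nlinarith
        linarith
      linarith

end Pool.Agent.H97.Green
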