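import Pool.Agent.H97.Green.IntMax

set_option autoImplicit false

open MeasureTheory Filter Topology

namespace Pool.Agent.H97.Green

lemma pos_lower {S : Set EE} (hS : IsCompact S) {f : EE → ℝ} (hf : ContinuousOn f S)
    (hpos : ∀ y ∈ S, 0 < f y) : ∃ κ : ℝ, 0 < κ ∧ ∀ y ∈ S, κ ≤ f y := by
  rcases S.eq_empty_or_nonempty with h | h
  · exact ⟨1, one_pos, fun y hy => by rw [h] at hy; exact absurd hy (Set.notMem_empty y)⟩
  · obtain ⟨z, hz, hmin⟩ := hS.exists_isMinOn h hf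
    exact ⟨f z, hpos z hz, fun y hy => hmin hy⟩

/-- reading off a bound from an `EReal` inequality -/
lemma ereal_shift {x : EReal} {g m : ℝ} (hx : x < 0) (h : x + (g : EReal) ≤ (m : EReal)) :
    x ≤ ((m - g : ℝ) : EReal) := by
  induction x with
  | bot => exact bot_le
  | top => exact absurd hx (by simp)
  | coe x =>
    have h1 : x + g ≤ m := by exact_mod_cast h
    exact_mod_cast (by linarith : x ≤ m - g)

theorem upper_on_curve {Ω : Set EE} (hΩ : IsOpen Ω) {u : EE → EReal} (hu : Comp Ω u) {h : EE → ℂ}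
    (hh : Differentiable ℂ h) {cm r : ℝ} (hcm : 0 ≤ cm) (hr : 0 < r)
    (H1 : ∀ y : EE, y 0 ≠ 0 → h y = 0 → r * ‖y 1‖ ≤ ‖y 0‖ → ‖y 0‖ < ‖y 1‖ → y ∈ Ω ∧ ‖y 0‖ < 1)
    (H2 : ∀ y : EE, y 0 ≠ 0 → h y = 0 → r * ‖y 1‖ = ‖y 0‖ →
      0 ≤ Real.log ‖y 0‖ + cm * (Real.log ‖y 1‖ - Real.log ‖y 0‖))
    (H3 : ∀ e : ℝ, 0 < e → ∃ μ0 : ℝ, 0 < μ0 ∧ ∀ μ : ℝ, 0 < μ → μ ≤ μ0 → ∀ y : EE, y 0 ≠ 0 →
      h y = 0 → ‖y 0‖ = (1 - μ) * ‖y 1‖ → -e ≤ Real.log ‖y 0‖)
    {P : EE} (hP0 : P 0 ≠ 0) (hP : h P = 0) (hPr : r * ‖P 1‖ < ‖P 0‖) (hP1 : ‖P 0‖ < ‖P 1‖) :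
    u P ≤ ((Real.log ‖P 0‖ + cm * (Real.log ‖P 1‖ - Real.log ‖P 0‖) : ℝ) : EReal) := by
  by_contra hcon
  rw [not_le] at hcon
  have hPΩ : P ∈ Ω := (H1 P hP0 hP hPr.le hP1).1
  have hPlt1 : ‖P 0‖ < 1 := (H1 P hP0 hP hPr.le hP1).2
  obtain ⟨husc, hneg, ⟨Cu, δu, hδu, hpole⟩, hsub⟩ := id hu
  set W : EE → ℝ := fun y => Real.log ‖y 0‖ + cm * (Real.log ‖y 1‖ - Real.log ‖y 0‖) with hW
  -- the value at P is real
  obtain ⟨U, hU⟩ : ∃ U : ℝ, u P = (U : EReal) := by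
    have h1 := hneg P hPΩ
    generalize u P = x at h1 hcon
    induction x with
    | bot => exact absurd hcon (by simp)
    | top => exact absurd h1 (by simp)
    | coe x => exact ⟨x, rfl⟩
  rw [hU] at hcon
  have hgap : 0 < U - W P := by
    have : W P < U := by exact_mod_cast hcon
    linarith
  set e2 : ℝ := (U - W P) / 4 with he2
  have he2pos : 0 < e2 := by positivity
  obtain ⟨d, hd0, hd1, hdW⟩ : ∃ d : ℝ, 0 < d ∧ d < 1 ∧ (1 - d) * W P ≤ W P + e2 := by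
    refine ⟨min (1 / 2) (e2 / (|W P| + 1)), ?_, ?_, ?_⟩
    · apply lt_min (by norm_num); positivity
    · exact lt_of_le_of_lt (min_le_left _ _) (by norm_num)
    · have h1 : min (1 / 2) (e2 / (|W P| + 1)) ≤ e2 / (|W P| + 1) := min_le_right _ _
      have h0 : 0 ≤ min (1 / 2) (e2 / (|W P| + 1)) := by
        apply le_min (by norm_num); positivity
      have h2 : min (1 / 2) (e2 / (|W P| + 1)) * |W P| ≤ e2 := by
        rw [le_div_iff₀ (by positivity)] at h1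
        nlinarith [abs_nonneg (W P)]
      nlinarith [neg_abs_le (W P)]
  have hn0P : 0 < ‖P 0‖ := norm_pos_iff.2 hP0
  have hn1P : 0 < ‖P 1‖ := hn0P.trans hP1
  -- choice of μ
  obtain ⟨μ0, hμ0, hμ0'⟩ := H3 (e2 / 4) (by positivity)
  obtain ⟨μ, hμ, hμle, hμP, hμ1⟩ : ∃ μ : ℝ, 0 < μ ∧ μ ≤ μ0 ∧ ‖P 0‖ < (1 - μ) * ‖P 1‖ ∧ μ < 1 := by
    refine ⟨min μ0 ((‖P 1‖ - ‖P 0‖) / (2 * ‖P 1‖)), ?_, min_le_left _ _, ?_, ?_⟩
    · apply lt_min hμ0
      apply div_pos (by linarith) (by positivity)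
    · have h1 : min μ0 ((‖P 1‖ - ‖P 0‖) / (2 * ‖P 1‖)) ≤ (‖P 1‖ - ‖P 0‖) / (2 * ‖P 1‖) :=
        min_le_right _ _
      rw [le_div_iff₀ (by positivity)] at h1
      nlinarith
    · refine lt_of_le_of_lt (min_le_right _ _) ?_
      rw [div_lt_one (by positivity)]
      linarith
  -- choice of η
  set Λ : ℝ := Real.log (1 + 1 / r) + |Cu| + 1 with hΛ
  obtain ⟨η, hη, hηP, hηδ, hηlog⟩ : ∃ η : ℝ, 0 < η ∧ η < ‖P 0‖ ∧ η * (1 + 1 / r) < δu ∧
      d * Real.log η ≤ -Λ := by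
    refine ⟨min (min (‖P 0‖ / 2) (δu / (2 * (1 + 1 / r)))) (Real.exp (-Λ / d)), ?_, ?_, ?_, ?_⟩
    · apply lt_min (lt_min (by positivity) (by positivity)) (Real.exp_pos _)
    · refine lt_of_le_of_lt ((min_le_left _ _).trans (min_le_left _ _)) ?_
      linarith
    · have h1 : min (min (‖P 0‖ / 2) (δu / (2 * (1 + 1 / r)))) (Real.exp (-Λ / d)) ≤
          δu / (2 * (1 + 1 / r)) := (min_le_left _ _).trans (min_le_right _ _)
      have h2 : 0 < 1 + 1 / r := by positivity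
      rw [le_div_iff₀ (by positivity)] at h1
      nlinarith
    · have h1 : Real.log (min (min (‖P 0‖ / 2) (δu / (2 * (1 + 1 / r)))) (Real.exp (-Λ / d))) ≤
          -Λ / d := by
        have h2 := Real.log_le_log (lt_min (lt_min (by positivity) (by positivity))
          (Real.exp_pos _) : 0 < min (min (‖P 0‖ / 2) (δu / (2 * (1 + 1 / r)))) (Real.exp (-Λ / d)))
          (min_le_right _ (Real.exp (-Λ / d)))
        rwa [Real.log_exp] at h2
      calc d * Real.log (min (min (‖P 0‖ / 2) (δu / (2 * (1 + 1 / r)))) (Real.exp (-Λ / d)))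
          ≤ d * (-Λ / d) := mul_le_mul_of_nonneg_left h1 hd0.le
        _ = -Λ := by field_simp
  -- the compact set
  have hc0 := continuous_coord 0
  have hc1 := continuous_coord 1
  have hhc : Continuous h := hh.continuous
  set K0 : Set EE := {y | η ≤ ‖y 0‖ ∧ ‖y 0‖ ≤ 1 ∧ r * ‖y 1‖ ≤ ‖y 0‖ ∧
    ‖y 0‖ ≤ (1 - μ) * ‖y 1‖} with hK0
  have hK0closed : IsClosed K0 := by
    have e : K0 = {y : EE | η ≤ ‖y 0‖} ∩ ({y | ‖y 0‖ ≤ 1} ∩ ({y | r * ‖y 1‖ ≤ ‖y 0‖} ∩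
        {y | ‖y 0‖ ≤ (1 - μ) * ‖y 1‖})) := by
      ext y; simp [hK0]
    rw [e]
    exact (isClosed_le continuous_const hc0.norm).inter
      ((isClosed_le hc0.norm continuous_const).inter
      ((isClosed_le (continuous_const.mul hc1.norm) hc0.norm).inter
      (isClosed_le hc0.norm (continuous_const.mul hc1.norm))))
  have hR2 : ∀ y ∈ K0, ‖y‖ ^ 2 ≤ 1 + (1 / r) ^ 2 := by
    intro y hy
    rw [norm_sq_EE]
    have h1 : ‖y 1‖ ≤ 1 / r := by
      rw [le_div_iff₀ hr]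
      linarith [hy.2.1, hy.2.2.1]
    have h2 := norm_nonneg (y 0)
    have h3 := norm_nonneg (y 1)
    have h4 : ‖y 0‖ ^ 2 ≤ 1 := by nlinarith [hy.2.1]
    have h5 : ‖y 1‖ ^ 2 ≤ (1 / r) ^ 2 := pow_le_pow_left₀ h3 h1 2
    linarith
  have hK0compact : IsCompact K0 := by
    refine Metric.isCompact_of_isClosed_isBounded hK0closed ?_
    rw [isBounded_iff_forall_norm_le]
    refine ⟨1 + (1 / r) ^ 2, fun y hy => ?_⟩
    have h1 := hR2 y hy
    have h2 := norm_nonneg y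
    have h3 : (0 : ℝ) ≤ (1 / r) ^ 2 := by positivity
    by_contra hc
    rw [not_le] at hc
    nlinarith
  have hne : ∀ y ∈ K0, y 0 ≠ 0 ∧ y 1 ≠ 0 ∧ ‖y 0‖ < ‖y 1‖ := by
    intro y hy
    have h1 : 0 < ‖y 0‖ := lt_of_lt_of_le hη hy.1
    have h2 : 0 < (1 - μ) * ‖y 1‖ := lt_of_lt_of_le h1 hy.2.2.2
    have h3 : 0 < ‖y 1‖ := by
      by_contra hc
      have : ‖y 1‖ = 0 := le_antisymm (not_lt.1 hc) (norm_nonneg _)
      rw [this, mul_zero] at h2
      exact lt_irrefl _ h2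
    refine ⟨norm_pos_iff.1 h1, norm_pos_iff.1 h3, ?_⟩
    have h4 := hy.2.2.2
    nlinarith
  set W' : EE → ℝ := WW ((1 - d) * (1 - cm)) ((1 - d) * cm) with hW'
  have hW'eq : ∀ y, W' y = (1 - d) * W y := by
    intro y; rw [hW', hW]; simp only [WW]; ring
  have hW'cont : ContinuousOn W' K0 := fun y hy =>
    (continuousAt_WW (hne y hy).1 (hne y hy).2.1).continuousWithinAt
  -- bad sets
  obtain ⟨κa, hκa, hκa'⟩ : ∃ κ : ℝ, 0 < κ ∧ ∀ y ∈ K0, ‖h y‖ < κ → y ∈ Ω ∧ ‖y 0‖ < 1 := by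
    have hcl : IsCompact (K0 ∩ (Ωᶜ ∪ {y : EE | 1 ≤ ‖y 0‖})) :=
      hK0compact.inter_right (hΩ.isClosed_compl.union (isClosed_le continuous_const hc0.norm))
    obtain ⟨κ, hκ, hκ'⟩ := pos_lower hcl (f := fun y => ‖h y‖) hhc.norm.continuousOn (fun y hy => by
      rw [norm_pos_iff]
      intro h0
      have h1 := H1 y (hne y hy.1).1 h0 hy.1.2.2.1 (hne y hy.1).2.2
      rcases hy.2 with h2 | h2
      · exact h2 h1.1
      · exact absurd h1.2 (not_lt.2 h2))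
    refine ⟨κ, hκ, fun y hy hhy => ?_⟩
    by_contra hc
    have : y ∈ K0 ∩ (Ωᶜ ∪ {y : EE | 1 ≤ ‖y 0‖}) := by
      refine ⟨hy, ?_⟩
      by_cases h2 : y ∈ Ω
      · right
        by_contra h3
        exact hc ⟨h2, not_le.1 h3⟩
      · left; exact h2
    exact absurd (hκ' y this) (not_le.2 hhy)
  obtain ⟨κb, hκb, hκb'⟩ : ∃ κ : ℝ, 0 < κ ∧ ∀ y ∈ K0, ‖h y‖ < κ → r * ‖y 1‖ = ‖y 0‖ → -e2 < W' y := by
    have hcl : IsCompact (K0 ∩ {y : EE | r * ‖y 1‖ = ‖y 0‖} ∩ (K0 ∩ W' ⁻¹' Set.Iic (-e2))) :=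
      (hK0compact.inter_right (isClosed_eq (continuous_const.mul hc1.norm) hc0.norm)).inter_right
        (hW'cont.preimage_isClosed_of_isClosed hK0closed isClosed_Iic)
    obtain ⟨κ, hκ, hκ'⟩ := pos_lower hcl (f := fun y => ‖h y‖) hhc.norm.continuousOn (fun y hy => by
      rw [norm_pos_iff]
      intro h0
      have h1 := H2 y (hne y hy.1.1).1 h0 hy.1.2
      have h2 : W' y ≤ -e2 := hy.2.2
      rw [hW'eq] at h2
      have h3 : 0 ≤ (1 - d) * W y := mul_nonneg (by linarith) h1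
      linarith)
    refine ⟨κ, hκ, fun y hy hhy hf => ?_⟩
    by_contra hc
    exact absurd (hκ' y ⟨⟨hy, hf⟩, hy, not_lt.1 hc⟩) (not_le.2 hhy)
  obtain ⟨κc, hκc, hκc'⟩ : ∃ κ : ℝ, 0 < κ ∧ ∀ y ∈ K0, ‖h y‖ < κ → ‖y 0‖ = (1 - μ) * ‖y 1‖ →
      -e2 < W' y := by
    have hcl : IsCompact (K0 ∩ {y : EE | ‖y 0‖ = (1 - μ) * ‖y 1‖} ∩ (K0 ∩ W' ⁻¹' Set.Iic (-e2))) :=
      (hK0compact.inter_right (isClosed_eq hc0.norm (continuous_const.mul hc1.norm))).inter_right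
        (hW'cont.preimage_isClosed_of_isClosed hK0closed isClosed_Iic)
    obtain ⟨κ, hκ, hκ'⟩ := pos_lower hcl (f := fun y => ‖h y‖) hhc.norm.continuousOn (fun y hy => by
      rw [norm_pos_iff]
      intro h0
      have h1 := hμ0' μ hμ hμle y (hne y hy.1.1).1 h0 hy.1.2
      have h2 : W' y ≤ -e2 := hy.2.2
      rw [hW'eq] at h2
      have h4 : Real.log ‖y 0‖ ≤ Real.log ‖y 1‖ :=
        Real.log_le_log (norm_pos_iff.2 (hne y hy.1.1).1) (hne y hy.1.1).2.2.le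
      have h5 : -(e2 / 4) ≤ W y := by
        have : 0 ≤ cm * (Real.log ‖y 1‖ - Real.log ‖y 0‖) := mul_nonneg hcm (by linarith)
        rw [hW]; simp only; linarith
      nlinarith)
    refine ⟨κ, hκ, fun y hy hhy hf => ?_⟩
    by_contra hc
    exact absurd (hκ' y ⟨⟨hy, hf⟩, hy, not_lt.1 hc⟩) (not_le.2 hhy)
  obtain ⟨κ1, hκ1, hκ1a, hκ1b, hκ1c⟩ : ∃ κ1 : ℝ, 0 < κ1 ∧ κ1 < κa ∧ κ1 < κb ∧ κ1 < κc := by
    refine ⟨min κa (min κb κc) / 2, ?_, ?_, ?_, ?_⟩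
    · have : 0 < min κa (min κb κc) := lt_min hκa (lt_min hκb hκc)
      positivity
    · have h1 : 0 < min κa (min κb κc) := lt_min hκa (lt_min hκb hκc)
      have h2 : min κa (min κb κc) ≤ κa := min_le_left _ _
      linarith
    · have h1 : 0 < min κa (min κb κc) := lt_min hκa (lt_min hκb hκc)
      have h2 : min κa (min κb κc) ≤ κb := (min_le_right _ _).trans (min_le_left _ _)
      linarith
    · have h1 : 0 < min κa (min κb κc) := lt_min hκa (lt_min hκb hκc)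
      have h2 : min κa (min κb κc) ≤ κc := (min_le_right _ _).trans (min_le_right _ _)
      linarith
  -- bound of W'
  obtain ⟨M, hM⟩ := hK0compact.exists_bound_of_continuousOn hW'cont
  set K : ℝ := (|M| + 1) / κ1 ^ 2 with hKdef
  have hK : 0 ≤ K := by positivity
  set δ : ℝ := e2 / (1 + (1 / r) ^ 2) with hδdef
  have hδ : 0 < δ := by positivity
  have hδb : ∀ y ∈ K0, δ * ‖y‖ ^ 2 ≤ e2 := by
    intro y hy
    have h1 := hR2 y hy
    calc δ * ‖y‖ ^ 2 ≤ δ * (1 + (1 / r) ^ 2) := mul_le_mul_of_nonneg_left h1 hδ.le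
      _ = e2 := by rw [hδdef]; field_simp
  set KK : Set EE := K0 ∩ {y | ‖h y‖ ≤ κ1} with hKK
  have hKKcompact : IsCompact KK := hK0compact.inter_right (isClosed_le hhc.norm continuous_const)
  have hKKΩ : ∀ y ∈ KK, y ∈ Ω ∧ ‖y 0‖ < 1 := fun y hy => hκa' y hy.1 (lt_of_le_of_lt hy.2 hκ1a)
  have hPK0 : P ∈ K0 := ⟨hηP.le, hPlt1.le, hPr.le, hμP.le⟩
  have hPKK : P ∈ KK := ⟨hPK0, by rw [Set.mem_ofPred_eq, hP, norm_zero]; exact hκ1.le⟩
  set g : EE → ℝ := fun y => -W' y - K * ‖h y‖ ^ 2 + δ * ‖y‖ ^ 2 with hg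
  have hgcont : ContinuousOn g K0 := by
    rw [hg]
    refine (hW'cont.neg.sub (Continuous.continuousOn ?_)).add (Continuous.continuousOn ?_)
    · exact continuous_const.mul (hhc.norm.pow 2)
    · exact continuous_const.mul (continuous_norm.pow 2)
  have husc' : UpperSemicontinuousOn (fun y => u y + ((g y : ℝ) : EReal)) KK := by
    have h1 : UpperSemicontinuousOn u KK := husc.mono (fun y hy => (hKKΩ y hy).1)
    have h2 : UpperSemicontinuousOn (fun y => ((g y : ℝ) : EReal)) KK :=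
      (continuous_coe_real_ereal.comp_continuousOn
        (hgcont.mono Set.inter_subset_left)).upperSemicontinuousOn
    refine h1.add' h2 (fun y hy => ?_)
    refine EReal.continuousAt_add (Or.inr (EReal.coe_ne_bot _)) (Or.inr (EReal.coe_ne_top _))
  obtain ⟨ys, hys, hmax⟩ := husc'.exists_isMaxOn ⟨P, hPKK⟩ hKKcompact
  have hysΩ := (hKKΩ ys hys).1
  have hyslt := (hKKΩ ys hys).2
  have hΦP : ((3 * e2 : ℝ) : EReal) ≤ u P + ((g P : ℝ) : EReal) := by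
    rw [hU, ← EReal.coe_add]
    apply EReal.coe_le_coe
    rw [hg]
    simp only
    rw [hP, norm_zero, hW'eq]
    have h1 : 0 ≤ δ * ‖P‖ ^ 2 := by positivity
    have h2 : U - W P = 4 * e2 := by rw [he2]; ring
    simp only [ne_eq, OfNat.ofNat_ne_zero, not_false_eq_true, zero_pow, mul_zero, sub_zero]
    linarith
  have hmaxP : u P + ((g P : ℝ) : EReal) ≤ u ys + ((g ys : ℝ) : EReal) := hmax hPKK
  obtain ⟨Us, hUs⟩ : ∃ Us : ℝ, u ys = (Us : EReal) := by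
    have h1 := hneg ys hysΩ
    have h2 := hΦP.trans hmaxP
    generalize u ys = x at h1 h2
    induction x with
    | bot =>
      rw [EReal.bot_add] at h2
      exact absurd (le_bot_iff.1 h2) (EReal.coe_ne_bot _)
    | top => exact absurd h1 (by simp)
    | coe x => exact ⟨x, rfl⟩
  have hUsneg : Us < 0 := by
    have := hneg ys hysΩ
    rw [hUs] at this
    exact_mod_cast this
  have hval : 3 * e2 ≤ Us + g ys := by
    have := hΦP.trans hmaxP
    rw [hUs, ← EReal.coe_add] at this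
    exact_mod_cast this
  -- the maximum point is interior
  have hδs := hδb ys hys.1
  have hKs : 0 ≤ K * ‖h ys‖ ^ 2 := by positivity
  have hgs : g ys = -W' ys - K * ‖h ys‖ ^ 2 + δ * ‖ys‖ ^ 2 := rfl
  have f1 : η < ‖ys 0‖ := by
    refine lt_of_le_of_ne hys.1.1 (fun heq => ?_)
    have h1 : 0 < ‖ys‖ := by
      have := norm_coord_le ys 0
      linarith
    have hy1 : ‖ys 1‖ ≤ η / r := by
      rw [le_div_iff₀ hr, heq]
      linarith [hys.1.2.2.1]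
    have h2 : ‖ys‖ ≤ η * (1 + 1 / r) := by
      have h3 := norm_sq_EE ys
      have h4 : ‖ys‖ ≤ ‖ys 0‖ + ‖ys 1‖ := by
        have h5 := norm_nonneg (ys 0)
        have h6 := norm_nonneg (ys 1)
        nlinarith [norm_nonneg ys]
      rw [← heq] at h4
      have : η * (1 + 1 / r) = η + η / r := by ring
      linarith
    have h3 := hpole ys hysΩ (norm_pos_iff.1 h1) (by rw [sub_zero]; linarith)
    rw [sub_zero, hUs] at h3
    have h4 : Us ≤ Real.log ‖ys‖ + Cu := by exact_mod_cast h3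
    have h5 : Real.log ‖ys‖ ≤ Real.log η + Real.log (1 + 1 / r) := by
      rw [← Real.log_mul hη.ne' (by positivity)]
      exact Real.log_le_log h1 h2
    have h6 : Real.log ‖ys 0‖ ≤ Real.log ‖ys 1‖ :=
      Real.log_le_log (norm_pos_iff.2 (hne ys hys.1).1) (hne ys hys.1).2.2.le
    have h7 : Real.log η ≤ W ys := by
      have : 0 ≤ cm * (Real.log ‖ys 1‖ - Real.log ‖ys 0‖) := mul_nonneg hcm (by linarith)
      rw [hW]; simp only; rw [heq]; linarith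
    have h8 : (1 - d) * Real.log η ≤ W' ys := by
      rw [hW'eq]; exact mul_le_mul_of_nonneg_left h7 (by linarith)
    have h9 : Cu ≤ |Cu| := le_abs_self Cu
    rw [hgs] at hval
    rw [hΛ] at hηlog
    nlinarith
  have f2 : r * ‖ys 1‖ < ‖ys 0‖ := by
    refine lt_of_le_of_ne hys.1.2.2.1 (fun heq => ?_)
    have h1 := hκb' ys hys.1 (lt_of_le_of_lt hys.2 hκ1b) heq
    rw [hgs] at hval
    linarith
  have f3 : ‖ys 0‖ < (1 - μ) * ‖ys 1‖ := by
    refine lt_of_le_of_ne hys.1.2.2.2 (fun heq => ?_)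
    have h1 := hκc' ys hys.1 (lt_of_le_of_lt hys.2 hκ1c) heq
    rw [hgs] at hval
    linarith
  have f4 : ‖h ys‖ < κ1 := by
    refine lt_of_le_of_ne hys.2 (fun heq => ?_)
    have h1 : K * ‖h ys‖ ^ 2 = |M| + 1 := by
      rw [heq, hKdef]; field_simp
    have h2 := hM ys hys.1
    rw [Real.norm_eq_abs] at h2
    have h3 := neg_abs_le (W' ys)
    have h4 := le_abs_self M
    rw [hgs] at hval
    linarith
  -- contradiction
  set O : Set EE := {y | η < ‖y 0‖ ∧ ‖y 0‖ < 1 ∧ r * ‖y 1‖ < ‖y 0‖ ∧ ‖y 0‖ < (1 - μ) * ‖y 1‖ ∧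
    ‖h y‖ < κ1} with hOdef
  have hOopen : IsOpen O := by
    have e : O = {y : EE | η < ‖y 0‖} ∩ ({y | ‖y 0‖ < 1} ∩ ({y | r * ‖y 1‖ < ‖y 0‖} ∩
        ({y | ‖y 0‖ < (1 - μ) * ‖y 1‖} ∩ {y | ‖h y‖ < κ1}))) := by
      ext y; simp [hOdef]
    rw [e]
    exact (isOpen_lt continuous_const hc0.norm).inter
      ((isOpen_lt hc0.norm continuous_const).inter
      ((isOpen_lt (continuous_const.mul hc1.norm) hc0.norm).inter
      ((isOpen_lt hc0.norm (continuous_const.mul hc1.norm)).inter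
      (isOpen_lt hhc.norm continuous_const))))
  have hOKK : ∀ y ∈ O, y ∈ KK := fun y hy =>
    ⟨⟨hy.1.le, hy.2.1.le, hy.2.2.1.le, hy.2.2.2.1.le⟩, hy.2.2.2.2.le⟩
  refine no_interior_max hu hOopen (fun y hy => (hKKΩ y (hOKK y hy)).1) (y0 := ys)
    ⟨f1, hyslt, f2, f3, f4⟩ hh (α := (1 - d) * (1 - cm)) (γ := (1 - d) * cm) (K := K) (δ := δ)
    (m0 := Us + g ys) hK hδ (hne ys hys.1).1 (hne ys hys.1).2.1 (fun y hy => ?_) ?_
  · have h1 : u y + ((g y : ℝ) : EReal) ≤ u ys + ((g ys : ℝ) : EReal) := hmax (hOKK y hy)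
    rw [hUs, ← EReal.coe_add] at h1
    have h2 := ereal_shift (hneg y (hKKΩ y (hOKK y hy)).1) h1
    refine h2.trans (EReal.coe_le_coe ?_)
    rw [hg, hW']
    simp only
    linarith
  · rw [hUs]
    congr 1
    rw [hgs, hW']
    ring

end Pool.Agent.H97.Green
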