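import Pool.Agent.H97.Green.Member

set_option autoImplicit false

open Filter Topology

namespace Pool.Agent.H97.Green

lemma log_norm_eq {a : ℂ} : Real.log ‖a‖ = -(XS a) / 2 := by
  unfold XS
  rw [Complex.normSq_eq_norm_sq, Real.log_pow]
  push_cast
  ring

theorem H2_eventually {a : ℂ} (ha1 : 1 / 4 ≤ ‖a‖) (ha : ‖a‖ ≤ 3 / 4) :
    ∀ᶠ m : ℕ in atTop, ∀ y : EE, y 0 ≠ 0 → hm m a y = 0 →
      Real.exp (-(XS a - 1 / (m : ℝ) ^ 2)) * ‖y 1‖ = ‖y 0‖ →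
      0 ≤ Real.log ‖y 0‖ + (1 / 2 + (2 / XS a) / (m : ℝ) ^ 2) *
        (Real.log ‖y 1‖ - Real.log ‖y 0‖) := by
  have hXS := XS_pos ha1 ha
  have hcast : Tendsto (fun m : ℕ => (m : ℝ)) atTop atTop := tendsto_natCast_atTop_atTop
  have hsq : Tendsto (fun m : ℕ => (m : ℝ) ^ 2) atTop atTop :=
    (tendsto_pow_atTop (by norm_num)).comp hcast
  have E1 : ∀ᶠ m : ℕ in atTop, 2 / XS a ≤ (m : ℝ) ^ 2 := hsq.eventually_ge_atTop _
  have E3 : ∀ᶠ m : ℕ in atTop, 1 < (m : ℝ) := hcast.eventually_gt_atTop _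
  have E4 : ∀ᶠ m : ℕ in atTop, (m : ℝ) ^ 2 * Real.exp (-(m * (XS a / 2))) < 1 / 32 := by
    have h1 : Tendsto (fun m : ℕ => (m : ℝ) * (XS a / 2)) atTop atTop :=
      hcast.atTop_mul_const (by positivity)
    have h2 := (Real.tendsto_pow_mul_exp_neg_atTop_nhds_zero 2).comp h1
    have h3 : Tendsto (fun m : ℕ => (4 / (XS a) ^ 2) *
        (((m : ℝ) * (XS a / 2)) ^ 2 * Real.exp (-((m : ℝ) * (XS a / 2))))) atTop (𝓝 0) := by
      have := h2.const_mul (4 / (XS a) ^ 2)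
      rw [mul_zero] at this
      exact this
    have h4 := h3.eventually (gt_mem_nhds (by norm_num : (0 : ℝ) < 1 / 32))
    filter_upwards [h4] with m hm
    have e : (4 / (XS a) ^ 2) * (((m : ℝ) * (XS a / 2)) ^ 2 * Real.exp (-((m : ℝ) * (XS a / 2)))) =
        (m : ℝ) ^ 2 * Real.exp (-(m * (XS a / 2))) := by
      have hne : XS a ≠ 0 := hXS.ne'
      have e2 : (4 / (XS a) ^ 2) * ((m : ℝ) * (XS a / 2)) ^ 2 = (m : ℝ) ^ 2 := by
        field_simp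
        ring
      rw [← mul_assoc, e2]
    rw [← e]
    exact hm
  filter_upwards [E1, E3, E4] with m h2A hm1 hexp
  intro y h0 hy hr
  have hmp : 0 < (m : ℝ) := by linarith
  have hm0 : m ≠ 0 := by
    rintro rfl
    norm_num at hm1
  have hz0 : 0 < ‖y 0‖ := norm_pos_iff.2 h0
  set t := Real.exp (-(XS a - 1 / (m : ℝ) ^ 2)) with ht
  have ht0 : 0 < t := Real.exp_pos _
  have hL : XS a / 2 ≤ XS a - 1 / (m : ℝ) ^ 2 := by
    have : 1 / (m : ℝ) ^ 2 ≤ XS a / 2 := by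
      rw [div_le_iff₀ (by positivity)]
      rw [div_le_iff₀ hXS] at h2A
      nlinarith
    linarith
  have ht1 : t < 1 := by
    rw [ht, Real.exp_lt_one_iff]
    linarith
  have hw0 : 0 < ‖y 1‖ := by
    by_contra h
    have : ‖y 1‖ = 0 := le_antisymm (not_lt.1 h) (norm_nonneg _)
    rw [this, mul_zero] at hr
    exact hz0.ne hr
  obtain ⟨f1, f2, f3, f4⟩ := curve_facts hm0 ha h0 hy ht0 ht1 hr.symm
  set Y := t ^ m with hY
  have hY0 : 0 < Y := pow_pos ht0 m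
  have hYexp : Y ≤ Real.exp (-(m * (XS a / 2))) := by
    rw [hY, ht, ← Real.exp_nat_mul]
    apply Real.exp_le_exp.2
    nlinarith
  have hY2 : (m : ℝ) ^ 2 * Y < 1 / 32 := by
    have : (m : ℝ) ^ 2 * Y ≤ (m : ℝ) ^ 2 * Real.exp (-(m * (XS a / 2))) := by gcongr
    linarith
  have hYs : Y < 1 / 32 := by
    have : (1 : ℝ) ≤ (m : ℝ) ^ 2 := by nlinarith
    nlinarith
  -- lower bound for |z|
  have h1 : ‖a‖ - ‖y 0‖ ≤ 2 * Y := by
    have := norm_sub_norm_le a (y 0)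
    rw [norm_sub_rev] at this
    linarith
  have hz8 : 1 / 8 ≤ ‖y 0‖ := by linarith
  have h2 : Real.log ‖a‖ - 16 * Y ≤ Real.log ‖y 0‖ := by
    have hap : 0 < ‖a‖ := by linarith
    have h3 : Real.log (‖a‖ / ‖y 0‖) ≤ ‖a‖ / ‖y 0‖ - 1 :=
      Real.log_le_sub_one_of_pos (by positivity)
    rw [Real.log_div hap.ne' hz0.ne'] at h3
    have h4 : ‖a‖ / ‖y 0‖ - 1 ≤ 16 * Y := by
      have : ‖a‖ / ‖y 0‖ - 1 = (‖a‖ - ‖y 0‖) / ‖y 0‖ := by field_simp
      rw [this, div_le_iff₀ hz0]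
      nlinarith
    linarith
  have h5 : Real.log ‖y 1‖ - Real.log ‖y 0‖ = XS a - 1 / (m : ℝ) ^ 2 := by
    rw [← hr, Real.log_mul ht0.ne' hw0.ne', ht, Real.log_exp]
    ring
  rw [h5]
  rw [log_norm_eq] at h2
  have h6 : (1 / 2 + (2 / XS a) / (m : ℝ) ^ 2) * (XS a - 1 / (m : ℝ) ^ 2) =
      XS a / 2 + (3 / 2) / (m : ℝ) ^ 2 - (2 / XS a) / (m : ℝ) ^ 4 := by
    field_simp
    ring
  rw [h6]
  have h7 : (2 / XS a) / (m : ℝ) ^ 4 ≤ 1 / (m : ℝ) ^ 2 := by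
    rw [div_le_div_iff₀ (by positivity) (by positivity)]
    nlinarith [pow_pos hmp 2]
  have h8 : 16 * Y ≤ (1 / 2) / (m : ℝ) ^ 2 := by
    rw [le_div_iff₀ (by positivity)]
    linarith
  have h9 : (3 / 2) / (m : ℝ) ^ 2 = 1 / (m : ℝ) ^ 2 + (1 / 2) / (m : ℝ) ^ 2 := by ring
  linarith

theorem H3_all {m : ℕ} (hm0 : m ≠ 0) {a : ℂ} (ha : ‖a‖ ≤ 3 / 4) :
    ∀ e : ℝ, 0 < e → ∃ μ0 : ℝ, 0 < μ0 ∧ ∀ μ : ℝ, 0 < μ → μ ≤ μ0 → ∀ y : EE, y 0 ≠ 0 →
      hm m a y = 0 → ‖y 0‖ = (1 - μ) * ‖y 1‖ → -e ≤ Real.log ‖y 0‖ := by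
  intro e he
  have hmp : 0 < (m : ℝ) := by exact_mod_cast Nat.pos_of_ne_zero hm0
  refine ⟨min (1 / 2) (min (1 / (28 * m)) (e / (14 * m))), by positivity, ?_⟩
  intro μ hμ hle y h0 hy hyt
  have hμ1 : μ ≤ 1 / 2 := hle.trans (min_le_left _ _)
  have hμ2 : μ ≤ 1 / (28 * m) := hle.trans ((min_le_right _ _).trans (min_le_left _ _))
  have hμ3 : μ ≤ e / (14 * m) := hle.trans ((min_le_right _ _).trans (min_le_right _ _))
  rw [le_div_iff₀ (by positivity)] at hμ2 hμ3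
  obtain ⟨f1, f2, f3, f4⟩ := curve_facts hm0 ha h0 hy (by linarith : 0 < 1 - μ) (by linarith) hyt
  have hbern : 1 - 2 * m * μ ≤ ((1 - μ) ^ m) ^ 2 := by
    have := one_add_mul_le_pow (a := -μ) (by linarith) (m * 2)
    rw [← pow_mul]
    push_cast at this
    have e1 : (1 + -μ) = 1 - μ := by ring
    rw [e1] at this
    linarith
  have hz0 : 0 < ‖y 0‖ := norm_pos_iff.2 h0
  have h1 : 1 - ‖y 0‖ ^ 2 ≤ 14 * m * μ := by linarith
  have h2 : 1 / 2 ≤ ‖y 0‖ ^ 2 := by nlinarith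
  have h3 : 1 - (‖y 0‖ ^ 2)⁻¹ ≤ Real.log (‖y 0‖ ^ 2) :=
    Real.one_sub_inv_le_log_of_pos (by positivity)
  rw [Real.log_pow] at h3
  push_cast at h3
  have h4 : (‖y 0‖ ^ 2)⁻¹ - 1 ≤ 2 * (1 - ‖y 0‖ ^ 2) := by
    have h5 : (‖y 0‖ ^ 2)⁻¹ - 1 = (1 - ‖y 0‖ ^ 2) / ‖y 0‖ ^ 2 := by field_simp
    rw [h5, div_le_iff₀ (by positivity)]
    have h6 : 0 ≤ 1 - ‖y 0‖ ^ 2 := by nlinarith
    nlinarith
  nlinarith

/-- The points at which everything is evaluated. -/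
noncomputable def pt (z : ℂ) (s : ℝ) : EE := !₂[z, (Real.exp s : ℂ) * z]

@[simp] lemma pt_zero (z : ℂ) (s : ℝ) : pt z s 0 = z := rfl

@[simp] lemma pt_one (z : ℂ) (s : ℝ) : pt z s 1 = (Real.exp s : ℂ) * z := rfl

lemma norm_pt_one (z : ℂ) (s : ℝ) : ‖pt z s 1‖ = Real.exp s * ‖z‖ := by
  rw [pt_one, norm_mul, Complex.norm_real, Real.norm_of_nonneg (Real.exp_pos _).le]

lemma log_pt_one {z : ℂ} (hz : z ≠ 0) (s : ℝ) : Real.log ‖pt z s 1‖ = s + Real.log ‖z‖ := by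
  rw [norm_pt_one, Real.log_mul (Real.exp_pos _).ne' (norm_pos_iff.2 hz).ne', Real.log_exp]

theorem upper_points {c ε : ℝ} (hc : 0 ≤ c) (hε : 0 < ε) {a : ℂ} (haa : ‖a - 1 / 2‖ ≤ 1 / 4)
    (hab : bf c ε a = E0 a) :
    ∃ z : ℂ, z ≠ 0 ∧ ‖z‖ < 1 ∧ ∃ A : ℝ, 0 < A ∧ ∀ᶠ m : ℕ in atTop, ∀ u : EE → EReal,
      Comp (Om c ε) u → u (pt z (Real.log 2 / m)) ≤
        ((Real.log ‖z‖ + (1 / 2 + A / (m : ℝ) ^ 2) * (Real.log 2 / m) : ℝ) : EReal) := by
  obtain ⟨ha1, ha⟩ := norm_bounds haa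
  have hXS := XS_pos ha1 ha
  have hd : (1 + star a / 2 : ℂ) ≠ 0 := by
    intro h
    have h1 : star a = -2 := by linear_combination 2 * h
    have h2 : ‖star a‖ = 2 := by rw [h1]; simp
    rw [norm_star] at h2
    linarith
  have hn : (1 / 2 + a : ℂ) ≠ 0 := by
    intro h
    have h1 : a - 1 / 2 = -1 := by linear_combination h
    rw [h1] at haa
    simp at haa
    linarith
  set z : ℂ := (1 / 2 + a) / (1 + star a / 2) with hz
  have hz0 : z ≠ 0 := div_ne_zero hn hd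
  have hzmul : z * (1 + star a / 2) = 1 / 2 + a := div_mul_cancel₀ _ hd
  have hphi : 2 * (z - a) = 1 - star a * z := by
    linear_combination 2 * hzmul
  have hcurve : ∀ m : ℕ, m ≠ 0 → hm m a (pt z (Real.log 2 / m)) = 0 := by
    intro m hm0
    unfold hm
    rw [pt_zero, pt_one, mul_pow]
    have e1 : ((Real.exp (Real.log 2 / m) : ℂ)) ^ m = 2 := by
      have : (Real.exp (Real.log 2 / m)) ^ m = 2 := by
        rw [← Real.exp_nat_mul, mul_div_cancel₀ _ (by exact_mod_cast hm0), Real.exp_log (by norm_num)]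
      exact_mod_cast this
    rw [e1]
    linear_combination z ^ m * hphi
  have hz1 : ‖z‖ < 1 := by
    have h1 := hcurve 1 one_ne_zero
    have h2 := curve_facts (t := Real.exp (-(Real.log 2))) one_ne_zero ha
      (y := pt z (Real.log 2 / (1 : ℕ))) (by simpa using hz0) h1 (Real.exp_pos _)
      (by rw [Real.exp_lt_one_iff]; have := Real.log_pos (by norm_num : (1:ℝ) < 2); linarith)
      (by rw [norm_pt_one, ← mul_assoc, ← Real.exp_add]; simp)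
    exact h2.1
  refine ⟨z, hz0, hz1, 2 / XS a, by positivity, ?_⟩
  have hcast : Tendsto (fun m : ℕ => (m : ℝ)) atTop atTop := tendsto_natCast_atTop_atTop
  have E1 : ∀ᶠ m : ℕ in atTop, 2 / XS a < (m : ℝ) := hcast.eventually_gt_atTop _
  have E3 : ∀ᶠ m : ℕ in atTop, 1 < (m : ℝ) := hcast.eventually_gt_atTop _
  filter_upwards [H1_eventually hc hε ha1 ha hab, H2_eventually ha1 ha, E1, E3] with m h1 h2 hE1 hm1
  intro u hu
  have hmp : 0 < (m : ℝ) := by linarith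
  have hm0 : m ≠ 0 := by
    rintro rfl
    norm_num at hm1
  have hσ : 0 < Real.log 2 / m := div_pos (Real.log_pos (by norm_num)) hmp
  have hl2 : Real.log 2 < 1 := by
    have := Real.log_two_lt_d9; linarith
  have key := upper_on_curve (isOpen_Om c hε) hu (differentiable_hm m a)
    (cm := 1 / 2 + (2 / XS a) / (m : ℝ) ^ 2) (r := Real.exp (-(XS a - 1 / (m : ℝ) ^ 2)))
    (by positivity) (Real.exp_pos _) h1 h2 (H3_all hm0 ha)
    (P := pt z (Real.log 2 / m)) (by simpa using hz0) (hcurve m hm0) ?_ ?_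
  · rw [log_pt_one hz0] at key
    simpa using key
  · rw [norm_pt_one, ← mul_assoc, ← Real.exp_add, pt_zero]
    have hz' : 0 < ‖z‖ := norm_pos_iff.2 hz0
    have : Real.exp (-(XS a - 1 / (m : ℝ) ^ 2) + Real.log 2 / m) < 1 := by
      rw [Real.exp_lt_one_iff]
      have h3 : 2 < m * XS a := by rwa [div_lt_iff₀ hXS] at hE1
      have h4 : Real.log 2 / m + 1 / (m : ℝ) ^ 2 < XS a := by
        have h5 : Real.log 2 / m ≤ 1 / m := by gcongr
        have h6 : 1 / (m : ℝ) ^ 2 < 1 / m := by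
          rw [div_lt_div_iff₀ (by positivity) hmp]
          nlinarith
        have h7 : 2 / (m : ℝ) < XS a := by rw [div_lt_iff₀ hmp]; linarith
        have h8 : 2 / (m : ℝ) = 1 / m + 1 / m := by ring
        linarith
      linarith
    nlinarith
  · rw [norm_pt_one, pt_zero]
    have hz' : 0 < ‖z‖ := norm_pos_iff.2 hz0
    have : 1 < Real.exp (Real.log 2 / m) := Real.one_lt_exp_iff.2 hσ
    nlinarith

end Pool.Agent.H97.Green
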